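import Pool.Agent.H57.PF.PPF
import Pool.Agent.H56.HF.FTF
import Pool.Agent.H64.PF.PPF

/-!
# THEOREM P+ in the families: `DisF`

The theorem on splittings for the generic maps of the families which are not limits of maps with more attracted critical points.
-/

set_option autoImplicit false

open Filter Topology Polynomial Metric Set MeasureTheory

namespace Pool.Agent.H57.PF

open Pool.Agent.H47.NM

/-- the theorem on splittings for generic maps of the families -/
theorem disF : Pool.Agent.H64.PF.DisF := by
  intro d k hd hk hkd x hg hup c hc hcJ P1 P2 h1 h2 hU hdis hcP hv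
  exact pp_disG hd hk hkd hg hup rfl
    (fa_iffF hd (fun l hl hld => Pool.Agent.H56.HF.fatF hd hl hld) hk hkd hg.cop (Pool.Agent.H57.CF.genM_deg hg) hup)
    hc hcJ h1 h2 hU hdis hcP hv

end Pool.Agent.H57.PF
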