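import Pool.Agent.H31.PP.XiP
import Pool.Agent.H31.PP.Wnd
import Pool.Agent.H79.GP.GTF

/-!
# THEOREM P+ in the families `F(d,k)`: the data, growth of the sums at infinity

`PDF`: the data of the contradiction in the dissipative case (`A = ∅`), with a neighbourhood of infinity in `PA` and off `T`. The kernel `KA z` grows linearly in `z`, so the sum over
the branches does (`ea_gr`: comparison of `KA z` with `KA a`, `‖a‖` large and fixed), so the function `Ξ` of the cohomological equation does, and the degree of `η` is `≤ 2 d - k` (`deg_gr`).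
-/

set_option autoImplicit false

open Filter Topology Polynomial OnePoint Metric Set MeasureTheory

namespace Pool.Agent.H57.PF

open Pool.Agent.H44.Fatou Pool.Agent.H32.BT Pool.Agent.H80.AJ Pool.Agent.H35.EX Pool.Agent.H61.TT
open Pool.Agent.H79.Eul Pool.Agent.H79.Par Pool.Agent.H47.NN Pool.Agent.H71.Top
open Pool.Agent.H42.PP Pool.Agent.H31.PP
open Pool.Agent.H1.PU (rho IX br Nice Av EE RR R1 g1 LAM KA EA)
open Pool.Agent.H79.GP (Dm Fam)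

/-- bounded velocities, in the directions of the family, of the points which land at `b` -/
def VMF {d : ℕ} (k : ℕ) (v : E d) (b : ℂ) : Prop :=
  ∀ w ∈ Dm d k, ∀ β : ℂ, ∃ C : ℝ, ∀ (n : ℕ) (z : ℕ → ℂ),
      (∀ i < n, (pol v.2).eval (z i) ≠ 0 ∧ z (i + 1) = gg (pol v.1) (pol v.2) (z i)) → z n = b →
      ∃ u : ℕ → ℂ, u n = β ∧
        (∀ i < n, u (i + 1) = Pool.Agent.H61.TT.dg (pol v.1) (pol v.2) (z i) * u i + xi v w (z i)) ∧
        ‖u 0‖ ≤ C * (1 + ‖z 0‖ ^ 2)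

/-- the data of the contradiction in the family -/
structure PDF {d : ℕ} (k : ℕ) (v : E d) (PA : Set (OnePoint ℂ)) (c : ℂ) (T : Set ℂ) (χ : ℂ → ℂ) : Prop where
  fam : Fam d k v
  rd : RatD d (pol v.1) (pol v.2)
  sys : Sys0 (pol v.1) (pol v.2) PA
  w : (ww (pol v.1) (pol v.2)).eval c = 0
  qc : (pol v.2).eval c ≠ 0
  v0 : gg (pol v.1) (pol v.2) c ≠ 0
  v1 : gg (pol v.1) (pol v.2) c ≠ 1
  vPA : ((gg (pol v.1) (pol v.2) c : ℂ) : OnePoint ℂ) ∈ PA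
  vS : gg (pol v.1) (pol v.2) c ∈ SS (pol v.1) (pol v.2) T
  cut : Cut PA T c χ
  t0 : (0 : ℂ) ∉ T
  t1 : (1 : ℂ) ∉ T
  cov : ∀ x ∈ tsupport (dbar1 χ), ∃ s : ℝ, Dsc d (pol v.1) (pol v.2) PA ∅ ∅ T c x s
  big : ∃ R : ℝ, 0 < R ∧ ∀ z : ℂ, R ≤ ‖z‖ → (z : OnePoint ℂ) ∈ PA ∧ z ∈ SS (pol v.1) (pol v.2) T

variable {d : ℕ} {P Q : Polynomial ℂ} {PA : Set (OnePoint ℂ)} {x : ℂ} {s : ℝ} {A : Set ℂ}

/-- comparison of two kernels -/
theorem ka_gr {R : ℝ} (hR : 0 < R) {a w z : ℂ} (ha : ‖a‖ = 2 * R + 2) (hw : ‖w‖ < R) (hz : 2 * R + 2 ≤ ‖z‖) :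
    ‖KA z w‖ ≤ 4 * (1 + ‖z‖) * ‖KA a w‖ := by
  have h1 : ‖w - a‖ ≤ 2 * ‖a‖ := by
    have := norm_sub_le w a
    linarith
  have h2 : ‖z‖ / 2 ≤ ‖w - z‖ := by
    have := norm_sub_norm_le z w
    rw [norm_sub_rev] at this
    linarith
  have h3 : ‖z - 1‖ ≤ ‖z‖ + 1 := by
    have := norm_sub_le z 1
    rwa [norm_one] at this
  have h4 : 1 ≤ ‖a - 1‖ := by
    have := norm_sub_norm_le a 1
    rw [norm_one] at this
    linarith
  have ha0 : 0 < ‖a‖ := by linarith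
  have hz0 : 0 < ‖z‖ := by linarith
  have hwz : 0 < ‖w - z‖ := by linarith
  have hwa : 0 < ‖w - a‖ := by
    have := norm_sub_norm_le a w
    rw [norm_sub_rev] at this
    linarith
  have e : ∀ b : ℂ, ‖KA b w‖ = ‖b‖ * ‖b - 1‖ / ‖w - b‖ * (‖w‖⁻¹ * ‖w - 1‖⁻¹) := by
    intro b
    unfold KA
    rw [norm_div, norm_mul, norm_mul (w * (w - 1)), norm_mul w, div_eq_mul_inv, mul_inv, mul_inv, div_eq_mul_inv]
    ring
  rw [e, e]
  have h5 : ‖z‖ * ‖z - 1‖ / ‖w - z‖ ≤ 2 * (1 + ‖z‖) := by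
    rw [div_le_iff₀ hwz]
    calc ‖z‖ * ‖z - 1‖ ≤ ‖z‖ * (‖z‖ + 1) := mul_le_mul_of_nonneg_left h3 hz0.le
      _ = 2 * (1 + ‖z‖) * (‖z‖ / 2) := by ring
      _ ≤ 2 * (1 + ‖z‖) * ‖w - z‖ := mul_le_mul_of_nonneg_left h2 (by positivity)
  have h6 : 1 / 2 ≤ ‖a‖ * ‖a - 1‖ / ‖w - a‖ := by
    rw [le_div_iff₀ hwa]
    have h7 : ‖a‖ * 1 ≤ ‖a‖ * ‖a - 1‖ := mul_le_mul_of_nonneg_left h4 ha0.le
    linarith
  have h7 : ‖z‖ * ‖z - 1‖ / ‖w - z‖ ≤ 4 * (1 + ‖z‖) * (‖a‖ * ‖a - 1‖ / ‖w - a‖) := by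
    have h8 : 4 * (1 + ‖z‖) * (1 / 2) ≤ 4 * (1 + ‖z‖) * (‖a‖ * ‖a - 1‖ / ‖w - a‖) :=
      mul_le_mul_of_nonneg_left h6 (by positivity)
    linarith
  calc ‖z‖ * ‖z - 1‖ / ‖w - z‖ * (‖w‖⁻¹ * ‖w - 1‖⁻¹)
      ≤ 4 * (1 + ‖z‖) * (‖a‖ * ‖a - 1‖ / ‖w - a‖) * (‖w‖⁻¹ * ‖w - 1‖⁻¹) :=
        mul_le_mul_of_nonneg_right h7 (by positivity)
    _ = 4 * (1 + ‖z‖) * (‖a‖ * ‖a - 1‖ / ‖w - a‖ * (‖w‖⁻¹ * ‖w - 1‖⁻¹)) := by ring

theorem pa_lam (h : PS0 d P Q PA x s) {a : ℂ} (ha : (a : OnePoint ℂ) ∈ PA) : a ∈ LAM P Q x s := by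
  intro n u hu he
  have h0 := h.s0
  apply h.off u (ball_subset_ball (by have := Pool.Agent.H1.PU.rho_ge h0; linarith) hu)
  rw [← he]
  exact iter_mem h.sys.inv ha n

/-- linear growth of the sum over the branches -/
theorem ea_gr (h : PS0 d P Q PA x s) (hA : Mj P Q x s A) {R : ℝ} (hR : 0 < R)
    (hPA : ∀ z : ℂ, R ≤ ‖z‖ → (z : OnePoint ℂ) ∈ PA) :
    ∃ C : ℝ, 0 ≤ C ∧ ∀ z : ℂ, 2 * R + 2 ≤ ‖z‖ → ∀ y ∈ ball x (6 * s), ‖EA P Q x s A z y‖ ≤ C * (1 + ‖z‖) := by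
  have h0 := h.s0
  obtain ⟨a, ha⟩ : ∃ a : ℂ, ‖a‖ = 2 * R + 2 := ⟨((2 * R + 2 : ℝ) : ℂ), by
    rw [Complex.norm_real, Real.norm_eq_abs, abs_of_pos (by linarith)]⟩
  obtain ⟨C', -, hbd⟩ := ea_bd h hA
  obtain ⟨-, u, hu1, hu2⟩ := hbd a (pa_lam h (hPA a (by linarith)))
  have hx : x ∈ ball x (6 * s) := mem_ball_self (by linarith)
  have hu0 : ∀ p, 0 ≤ u p := fun p => (norm_nonneg _).trans (hu2 p x hx)
  refine ⟨4 * ∑' p, u p, mul_nonneg (by norm_num) (tsum_nonneg hu0), fun z hz y hy => ?_⟩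
  have hb : ∀ p : EE P Q x A, ‖deriv (br P Q x s p.1) y ^ 2 * KA z (br P Q x s p.1 y)‖ ≤
      4 * (1 + ‖z‖) * u p := by
    intro p
    have h1 : ‖br P Q x s p.1 y‖ < R := by
      by_contra hcon
      exact br_off h p.2.1 (ball_subset_ball (by have := Pool.Agent.H1.PU.rho_ge h0; linarith) hy)
        (hPA _ (not_lt.1 hcon))
    have h2 := ka_gr hR ha h1 hz
    have h3 := hu2 p y hy
    rw [norm_mul] at h3 ⊢
    calc ‖deriv (br P Q x s p.1) y ^ 2‖ * ‖KA z (br P Q x s p.1 y)‖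
        ≤ ‖deriv (br P Q x s p.1) y ^ 2‖ * (4 * (1 + ‖z‖) * ‖KA a (br P Q x s p.1 y)‖) :=
          mul_le_mul_of_nonneg_left h2 (norm_nonneg _)
      _ = 4 * (1 + ‖z‖) * (‖deriv (br P Q x s p.1) y ^ 2‖ * ‖KA a (br P Q x s p.1 y)‖) := by ring
      _ ≤ 4 * (1 + ‖z‖) * u p := mul_le_mul_of_nonneg_left h3 (by positivity)
  unfold EA
  refine (tsum_of_norm_bounded (hu1.mul_left (4 * (1 + ‖z‖))).hasSum hb).trans (le_of_eq ?_)
  rw [tsum_mul_left]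
  ring

/-- the degree from the growth -/
theorem deg_of_gr {η : Polynomial ℂ} {N : ℕ} {C R : ℝ} (h : ∀ z : ℂ, R ≤ ‖z‖ → ‖η.eval z‖ ≤ C * ‖z‖ ^ N) :
    η.natDegree ≤ N := by
  by_contra hcon
  rw [not_le] at hcon
  have hη0 : η ≠ 0 := by
    rintro rfl
    rw [natDegree_zero] at hcon
    omega
  have h1 : Tendsto (fun y : ℂ => ‖η.reverse.eval y‖) (𝓝[≠] 0) (𝓝 ‖η.leadingCoeff‖) := by
    have h2 : Continuous fun y : ℂ => ‖η.reverse.eval y‖ := η.reverse.continuous.norm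
    have h3 := h2.tendsto 0
    rw [← coeff_zero_eq_eval_zero, coeff_zero_reverse] at h3
    exact h3.mono_left nhdsWithin_le_nhds
  have h2 : Tendsto (fun y : ℂ => C * ‖y‖) (𝓝[≠] 0) (𝓝 0) := by
    have h3 : Continuous fun y : ℂ => C * ‖y‖ := by fun_prop
    have h4 := h3.tendsto 0
    rw [norm_zero, mul_zero] at h4
    exact h4.mono_left nhdsWithin_le_nhds
  have hC : ∀ᶠ y : ℂ in 𝓝[≠] 0, ‖η.reverse.eval y‖ ≤ |C| * ‖y‖ := by
    have hr : 0 < 1 / (|R| + 1) := by positivity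
    filter_upwards [self_mem_nhdsWithin, mem_nhdsWithin_of_mem_nhds (ball_mem_nhds (0 : ℂ) (lt_min hr one_pos))]
      with y hy0 hy
    rw [mem_ball_zero_iff] at hy
    have hy1 : ‖y‖ < 1 / (|R| + 1) := lt_of_lt_of_le hy (min_le_left _ _)
    have hy2 : ‖y‖ < 1 := lt_of_lt_of_le hy (min_le_right _ _)
    have hy0' : y ≠ 0 := hy0
    have hyp : 0 < ‖y‖ := norm_pos_iff.2 hy0'
    have h3 : R ≤ ‖y⁻¹‖ := by
      rw [norm_inv]
      have h4 : |R| + 1 < ‖y‖⁻¹ := by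
        rw [lt_inv_comm₀ (by positivity) hyp, ← one_div]
        exact hy1
      have := le_abs_self R
      linarith
    have h4 := h _ h3
    have h5 : (reverse η).eval y * (y⁻¹) ^ η.natDegree = η.eval y⁻¹ := by
      have hI := invertibleOfNonzero (inv_ne_zero hy0')
      have h6 := eval₂_reverse_mul_pow (RingHom.id ℂ) y⁻¹ η
      rw [invOf_eq_inv, inv_inv] at h6
      exact h6
    rw [← h5, norm_mul, norm_pow, norm_inv] at h4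
    have h6 : 0 < ‖y‖ ^ η.natDegree := by positivity
    have h7 : ‖(reverse η).eval y‖ ≤ C * (‖y‖⁻¹ ^ N * ‖y‖ ^ η.natDegree) := by
      have h8 := mul_le_mul_of_nonneg_right h4 h6.le
      rw [mul_assoc, inv_pow, inv_mul_cancel₀ h6.ne', mul_one] at h8
      refine h8.trans (le_of_eq ?_)
      rw [inv_pow]
      ring
    refine h7.trans ?_
    obtain ⟨m, hm⟩ := Nat.exists_eq_add_of_lt hcon
    have h8 : ‖y‖⁻¹ ^ N * ‖y‖ ^ η.natDegree = ‖y‖ ^ (m + 1) := by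
      rw [hm, add_assoc, pow_add, ← mul_assoc, ← mul_pow, inv_mul_cancel₀ hyp.ne', one_pow, one_mul]
    rw [h8]
    have h9 : ‖y‖ ^ (m + 1) ≤ ‖y‖ := by
      rw [pow_succ]
      exact mul_le_of_le_one_left hyp.le (pow_le_one₀ hyp.le hy2.le)
    calc C * ‖y‖ ^ (m + 1) ≤ |C| * ‖y‖ ^ (m + 1) := mul_le_mul_of_nonneg_right (le_abs_self C) (by positivity)
      _ ≤ |C| * ‖y‖ := mul_le_mul_of_nonneg_left h9 (abs_nonneg _)
  have h3 : Tendsto (fun y : ℂ => |C| * ‖y‖) (𝓝[≠] 0) (𝓝 0) := by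
    have h3 : Continuous fun y : ℂ => |C| * ‖y‖ := by fun_prop
    have h4 := h3.tendsto 0
    rw [norm_zero, mul_zero] at h4
    exact h4.mono_left nhdsWithin_le_nhds
  have h4 := le_of_tendsto_of_tendsto h1 h3 hC
  have h5 : η.leadingCoeff = 0 := norm_le_zero_iff.1 h4
  exact hη0 (leadingCoeff_eq_zero.1 h5)

end Pool.Agent.H57.PF
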