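import Pool.Agent.H64.MF.FSF
import Pool.Agent.H44.NR.Vlf
import Pool.Agent.H44.NR.Trp

/-!
# THEOREM P+ in the families: bounded velocities, in the directions of the family, of the preimages of a Fatou point

`ac_nearF`, `trpF`: as `ac_near`, `trp` (H44/NR/Trp), for the maps of the family near a locally maximal map of the family. `vfatF`: as `vfat` (H44/NR/Bdf); the marked points are on
moving repelling cycles (`rep_near`, `rep_mv`, H64/MF).
-/

set_option autoImplicit false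

open Filter Topology Polynomial Metric Set

namespace Pool.Agent.H57.PF

open Pool.Agent.H44.Fatou Pool.Agent.H32.BT Pool.Agent.H79.Eul Pool.Agent.H79.Par Pool.Agent.H61.TT
open Pool.Agent.H35.EX Pool.Agent.H44.RR Pool.Agent.H56.HR Pool.Agent.H44.RC Pool.Agent.H47.RJ
open Pool.Agent.H79.ES Pool.Agent.H44.ND Pool.Agent.H44.CP Pool.Agent.H64.PC Pool.Agent.H47.NN
open Pool.Agent.H44.NP Pool.Agent.H47.NM Pool.Agent.H57.CF Pool.Agent.H64.MF Pool.Agent.H44.NR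

variable {d k : ℕ}

theorem ac_nearF (hd : 2 ≤ d) {x0 : Em d k} (hcop : IsCoprime (pol x0.1) (pol x0.2))
    (hdeg : max (pol x0.1).natDegree (pol x0.2).natDegree = d) (hup : ¬ UpF d k x0)
    {W : Set (OnePoint ℂ)} (hW : IsOpen W)
    (hWA : ∀ c, IsCrit (Rf (ex d k x0)) c → Att (Rf (ex d k x0)) c → c ∈ W) :
    ∀ᶠ x in 𝓝 x0, ∀ c, IsCrit (Rf (ex d k x)) c → Att (Rf (ex d k x)) c → c ∈ W := by
  have hK : IsCompact Wᶜ := hW.isClosed_compl.isCompact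
  have hup' : ∀ᶠ x in 𝓝 x0, IsCoprime (pol x.1) (pol x.2) →
      max (pol x.1).natDegree (pol x.2).natDegree = d → NA (ex d k x) < NA (ex d k x0) + 1 := by
    unfold UpF at hup
    push Not at hup
    obtain ⟨ε, hε, h⟩ := hup
    exact Metric.eventually_nhds_iff_ball.2 ⟨ε, hε, fun v hv h1 h2 => h v hv h1 h2⟩
  have hex := (ex_cont d k).continuousAt (x := x0)
  have key : ∀ c0 ∈ Wᶜ, ∃ N ∈ 𝓝 c0, ∀ᶠ x in 𝓝 x0, ∀ c ∈ N, ¬ (IsCrit (Rf (ex d k x)) c ∧ Att (Rf (ex d k x)) c) := by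
    intro c0 hc0
    by_cases hcr : IsCrit (Rf (ex d k x0)) c0
    · have hna : ¬ Att (Rf (ex d k x0)) c0 := fun h => hc0 (hWA c0 hcr h)
      obtain ⟨ε, hε, h1⟩ := na_up hd (ex_cop hcop) (ex_deg hdeg) hna
      refine ⟨{y | chord c0 y < ε}, Pool.Agent.H47.RJ.ch_ball c0 hε, ?_⟩
      filter_upwards [hup', ex_near hd hcop hdeg, hex.eventually (Metric.ball_mem_nhds (ex d k x0) hε)] with x h2 h3 h4
      rintro c hc ⟨h5, h6⟩
      have h7 := h1 _ h4 c hc h5 h6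
      have h8 := h2 h3.1 h3.2
      omega
    · obtain ⟨N, hN, h1⟩ := Pool.Agent.H44.ND.crit_near hd (ex_cop hcop) (ex_deg hdeg) hcr
      refine ⟨N, hN, ?_⟩
      filter_upwards [hex.eventually h1] with x h2 c hc h3
      exact h2 c hc h3.1
  have h := hK.induction_on (p := fun s => ∀ᶠ x in 𝓝 x0, ∀ c ∈ s, ¬ (IsCrit (Rf (ex d k x)) c ∧ Att (Rf (ex d k x)) c))
    (Filter.Eventually.of_forall fun v c hc => hc.elim)
    (fun s t hst ht => ht.mono fun v h1 c hc => h1 c (hst hc))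
    (fun s t hs ht => (hs.and ht).mono fun v h1 c hc => hc.elim (h1.1 c) (h1.2 c))
    (fun x hx => by
      obtain ⟨N, hN, h1⟩ := key x hx
      exact ⟨N, mem_nhdsWithin_of_mem_nhds hN, h1⟩)
  filter_upwards [h] with v h1 c hc1 hc2
  by_contra hcW
  exact h1 c hcW ⟨hc1, hc2⟩

/-- critical orbits of the maps of the family near a locally maximal map stay away from an attracted point off the critical orbits -/
theorem trpF (hd : 2 ≤ d) {x0 : Em d k} (hcop : IsCoprime (pol x0.1) (pol x0.2))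
    (hdeg : max (pol x0.1).natDegree (pol x0.2).natDegree = d) (hup : ¬ UpF d k x0) {b : OnePoint ℂ}
    (hb : Att (Rf (ex d k x0)) b) (hbP : b ∉ PC (Rf (ex d k x0))) (hbc : ¬ IsCrit (Rf (ex d k x0)) b) :
    ∃ W ∈ 𝓝 b, ∀ᶠ x in 𝓝 x0, ∀ c, IsCrit (Rf (ex d k x)) c → ∀ n : ℕ, (Rf (ex d k x))^[n] c ∉ W := by
  have hcop' := ex_cop hcop
  have hdeg' := ex_deg hdeg
  have hex := (ex_cont d k).continuousAt (x := x0)
  obtain ⟨v0, hv0⟩ : ∃ v0, v0 = ex d k x0 := ⟨_, rfl⟩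
  rw [← hv0] at hb hbP hbc hcop' hdeg'
  have hf : Continuous (Rf v0) := rat_continuous hcop'
  have hfin : {c | IsCrit (Rf v0) c}.Finite := crit_finite hcop' (by rw [hdeg']; omega)
  obtain ⟨W1, hW1, hA⟩ := att_pers hd hcop' hdeg' hb
  -- a closed neighbourhood of `b`
  have hXc : IsClosed (PC (Rf v0) ∪ {c | IsCrit (Rf v0) c}) := by
    refine IsClosed.union ?_ hfin.isClosed
    unfold PC
    exact isClosed_closure
  have hXb : b ∉ PC (Rf v0) ∪ {c | IsCrit (Rf v0) c} := by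
    rintro (h | h)
    · exact hbP h
    · exact hbc h
  obtain ⟨W2, ⟨hW2, hW2c⟩, hW2X⟩ := (closed_nhds_basis b).mem_iff.1 (hXc.isOpen_compl.mem_nhds hXb)
  have hX2 : ∀ x ∈ PC (Rf v0) ∪ {c | IsCrit (Rf v0) c}, x ∈ W2ᶜ := fun x hx h => hW2X h hx
  have key : ∀ c0 : OnePoint ℂ, ∃ W ∈ 𝓝 c0, IsCrit (Rf v0) c0 → Att (Rf v0) c0 →
      ∀ᶠ v in 𝓝 v0, ∀ x ∈ W, ∀ j : ℕ, (Rf v)^[j] x ∈ W2ᶜ := by
    intro c0
    by_cases h0 : IsCrit (Rf v0) c0 ∧ Att (Rf v0) c0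
    · obtain ⟨h1, z, n, hz, ht⟩ := h0
      have hPC : ∀ j : ℕ, 1 ≤ j → (Rf v0)^[j] c0 ∈ PC (Rf v0) := by
        intro j hj
        unfold PC
        exact subset_closure ⟨c0, h1, j, hj, rfl⟩
      have hzj : ∀ j : ℕ, (Rf v0)^[j] z ∈ PC (Rf v0) := by
        intro j
        have h3 : Tendsto (fun k : ℕ => (Rf v0)^[n * k + j] c0) atTop (𝓝 ((Rf v0)^[j] z)) := by
          have h4 := ((hf.iterate j).tendsto z).comp ht
          refine h4.congr fun k => ?_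
          rw [Nat.add_comm, Function.iterate_add_apply]
          rfl
        have h5 : IsClosed (PC (Rf v0)) := by
          unfold PC
          exact isClosed_closure
        refine h5.mem_of_tendsto h3 ?_
        filter_upwards [eventually_ge_atTop 1] with k hk
        refine hPC _ ?_
        have h6 : 1 ≤ n * k := Nat.one_le_iff_ne_zero.2 (Nat.mul_ne_zero (by have := hz.1; omega) (by omega))
        omega
      obtain ⟨W, hW, h6⟩ := trap1 hd hcop' hdeg' hz ht (B := W2ᶜ) hW2c.isOpen_compl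
        (fun j => by
          rcases Nat.eq_zero_or_pos j with rfl | hj
          · exact hX2 _ (Or.inr h1)
          · exact hX2 _ (Or.inl (hPC j hj)))
        (fun j => hX2 _ (Or.inl (hzj j)))
      exact ⟨W, hW, fun _ _ => h6⟩
    · exact ⟨Set.univ, Filter.univ_mem, fun h1 h2 => absurd ⟨h1, h2⟩ h0⟩
  choose N hN hNv using key
  obtain ⟨A, hA'⟩ : ∃ A, A = {c | IsCrit (Rf v0) c ∧ Att (Rf v0) c} := ⟨_, rfl⟩
  have hAfin : A.Finite := by
    rw [hA']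
    exact hfin.subset fun c hc => hc.1
  have h1 : ∀ᶠ v in 𝓝 v0, ∀ c0 ∈ A, ∀ x ∈ N c0, ∀ j : ℕ, (Rf v)^[j] x ∈ W2ᶜ := by
    rw [Filter.eventually_all_finite hAfin]
    intro c0 hc0
    rw [hA'] at hc0
    exact hNv c0 hc0.1 hc0.2
  have h2 := ac_nearF hd hcop hdeg hup (W := ⋃ c0 ∈ A, interior (N c0))
    (isOpen_biUnion fun c0 _ => isOpen_interior) (fun c hc1 hc2 => by
      rw [← hv0] at hc1 hc2
      refine mem_biUnion (x := c) (by rw [hA']; exact ⟨hc1, hc2⟩) ?_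
      exact mem_interior_iff_mem_nhds.2 (hN c))
  refine ⟨W1 ∩ W2, Filter.inter_mem hW1 hW2, ?_⟩
  rw [hv0] at h1 hA
  filter_upwards [hex.eventually h1, h2, hex.eventually hA, ex_near hd hcop hdeg] with v h3 h4 h5 h6
  rintro c hc n ⟨h7, h8⟩
  have h9 : Att (Rf (ex d k v)) c := by
    have h10 := h5 _ h7
    have hcf : Continuous (Rf (ex d k v)) := rat_continuous (ex_cop h6.1)
    exact (Pool.Agent.H32.BT.att_iter hcf c n).1 h10
  have h11 := h4 c hc h9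
  obtain ⟨c0, hc0, h12⟩ := mem_iUnion₂.1 h11
  exact h3 c0 hc0 c (interior_subset h12) n h8

/-- bounded velocities of the preimages of a Fatou point -/
theorem vfatF (hd : 2 ≤ d) (hk : 2 ≤ k) (hkd : k ≤ d) {x0 : Em d k} (hg : GenM d k (pol x0.1) (pol x0.2))
    (hup : ¬ UpF d k x0) {c1 : OnePoint ℂ} (hc1 : c1 ∈ JS (Rf (ex d k x0))) {b : ℂ}
    (hb : Att (Rf (ex d k x0)) (b : OnePoint ℂ)) (hbP : (b : OnePoint ℂ) ∉ PC (Rf (ex d k x0)))
    (hbc : ¬ IsCrit (Rf (ex d k x0)) (b : OnePoint ℂ)) (w : Em d k) (β : ℂ) :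
    ∃ C : ℝ, ∀ (n : ℕ) (z : ℕ → ℂ),
      (∀ i < n, (pol (ex d k x0).2).eval (z i) ≠ 0 ∧ z (i + 1) = gg (pol (ex d k x0).1) (pol (ex d k x0).2) (z i)) →
      z n = b → ∃ u : ℕ → ℂ, u n = β ∧ (∀ i < n, u (i + 1) =
        Pool.Agent.H61.TT.dg (pol (ex d k x0).1) (pol (ex d k x0).2) (z i) * u i +
        xi (ex d k x0) (ex d k w) (z i)) ∧ ∀ i ≤ n, ‖u i‖ ≤ C * (1 + ‖z i‖ ^ 2) := by
  have hcop0 := ex_cop hg.cop
  have hdeg0 := ex_deg (genM_deg hg)
  obtain ⟨hinf0, hinf1⟩ := inf_att hk hkd hg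
  obtain ⟨ε0, R, hε0, hR, hgb⟩ := good_ball hd hk hkd hg hup
  obtain ⟨r, hrd⟩ : ∃ r, r = ε0 / (2 * (‖w‖ + 1)) := ⟨_, rfl⟩
  have hw0 : 0 < ‖w‖ + 1 := by positivity
  have hr : 0 < r := by rw [hrd]; positivity
  have hvb : ∀ t : ℂ, ‖t‖ ≤ r → x0 + t • w ∈ ball x0 ε0 := by
    intro t ht
    rw [mem_ball_iff_norm, add_sub_cancel_left, norm_smul]
    rw [hrd, le_div_iff₀ (by positivity)] at ht
    have h1 := norm_nonneg t
    have h2 := norm_nonneg w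
    nlinarith
  obtain ⟨W1, hW1, hA⟩ := att_pers hd hcop0 hdeg0 hb
  obtain ⟨W2, hW2, hC⟩ := trpF hd hg.cop (genM_deg hg) hup hb hbP hbc
  have hA2 := (ex_cont d k).continuousAt.eventually hA
  obtain ⟨v, hv⟩ : ∃ v : E d, v = ex d k x0 := ⟨_, rfl⟩
  obtain ⟨u, hu⟩ : ∃ u : E d, u = ex d k w := ⟨_, rfl⟩
  have hlin : ∀ t : ℂ, v + t • u = ex d k (x0 + t • w) := by
    intro t
    rw [hv, hu]
    exact ex_lin x0 w t
  have hcop : ∀ t : ℂ, ‖t‖ ≤ r → IsCoprime (pol (v + t • u).1) (pol (v + t • u).2) := by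
    intro t ht
    rw [hlin]
    exact ex_cop (hgb _ (hvb t ht)).1.cop
  have hdeg : ∀ t : ℂ, ‖t‖ ≤ r → max (pol (v + t • u).1).natDegree (pol (v + t • u).2).natDegree = d := by
    intro t ht
    rw [hlin]
    exact ex_deg (genM_deg (hgb _ (hvb t ht)).1)
  have hne : ∀ p : ℕ, 0 < p → ∀ t : ℂ, ‖t‖ ≤ r → ∀ x m,
      Cyc (pol (v + t • u).1) (pol (v + t • u).2) p x m → ‖m‖ ≠ 1 := by
    intro p hp t ht x m hc
    rw [hlin] at hc
    exact (hgb _ (hvb t ht)).2.2.1 p hp x m hc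
  have hbd : ∀ p : ℕ, 0 < p → ∀ t : ℂ, ‖t‖ ≤ r → ∀ x m,
      Cyc (pol (v + t • u).1) (pol (v + t • u).2) p x m → 1 ≤ ‖m‖ → ∀ i, i ≤ p → ‖x i‖ ≤ R := by
    intro p hp t ht x m hc hm
    rw [hlin] at hc
    exact (hgb _ (hvb t ht)).2.2.2 p hp x m hc hm
  have hAR : ∀ t : ℂ, ‖t‖ ≤ r → AR (v + t • u) := by
    intro t ht
    rw [hlin]
    have h1 := hgb _ (hvb t ht)
    refine ar_m hk hkd h1.1 fun p hp y μ hc => h1.2.2.1 p hp y μ ?_
    rw [(ex_pol _).1, (ex_pol _).2]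
    exact hc
  have hv0 : v + (0 : ℂ) • u = v := by rw [zero_smul, add_zero]
  rw [← hv] at hcop0 hdeg0 hinf0 hinf1 hc1
  have hN0 : ∀ p : ℕ, 0 < p → ∀ x m, Cyc (pol v.1) (pol v.2) p x m → ‖m‖ ≠ 1 := by
    intro p hp x m hc
    have h1 := hne p hp 0 (by rw [norm_zero]; exact hr.le) x m
    rw [hv0] at h1
    exact h1 hc
  -- three repelling cycles
  obtain ⟨p0, x1, m0, a0, b0, c0, -, -⟩ := rep_near hd hcop0 hdeg0 hinf0 hN0 hc1 univ_mem finite_empty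
  obtain ⟨p1, x2, m1, a1, b1, c1, -, d1⟩ := rep_near hd hcop0 hdeg0 hinf0 hN0 hc1 univ_mem
    (finite_singleton (x1 0 : OnePoint ℂ))
  obtain ⟨p2, x3, m2, a2, b2, c2, -, d2⟩ := rep_near hd hcop0 hdeg0 hinf0 hN0 hc1 univ_mem
    ((finite_singleton (x1 0 : OnePoint ℂ)).insert (x2 0 : OnePoint ℂ))
  obtain ⟨Q0, e1, f1, g1⟩ := rep_mv hr hcop (hne p0 a0) (hbd p0 a0) a0 b0 c0
  obtain ⟨Q1, e2, f2, g2⟩ := rep_mv hr hcop (hne p1 a1) (hbd p1 a1) a1 b1 c1
  obtain ⟨Q2, e3, f3, g3⟩ := rep_mv hr hcop (hne p2 a2) (hbd p2 a2) a2 b2 c2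
  have n1 : Q0 0 ≠ Q1 0 := by
    rw [f1, f2]
    intro h
    exact d1 (by rw [← h]; exact rfl)
  have n2 : Q0 0 ≠ Q2 0 := by
    rw [f1, f3]
    intro h
    exact d2 (Or.inr (by rw [← h]; exact rfl))
  have n3 : Q1 0 ≠ Q2 0 := by
    rw [f2, f3]
    intro h
    exact d2 (Or.inl (by rw [← h]))
  obtain ⟨Q, hQ⟩ : ∃ Q : Fin 3 → ℂ → ℂ, Q = ![Q0, Q1, Q2] := ⟨_, rfl⟩
  have hQd : ∀ j, DifferentiableOn ℂ (Q j) (ball 0 r) := by
    intro j
    rw [hQ]
    fin_cases j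
    · exact e1
    · exact e2
    · exact e3
  have hQJ : ∀ j, ∀ t ∈ ball (0 : ℂ) r, (Q j t : OnePoint ℂ) ∈ JS (Rf (v + t • u)) := by
    intro j t ht
    rw [hQ]
    fin_cases j
    · exact (g1 t ht).2
    · exact (g2 t ht).2
    · exact (g3 t ht).2
  have hQn : ∀ i j, i ≠ j → Q i 0 ≠ Q j 0 := by
    intro i j hij
    rw [hQ]
    fin_cases i <;> fin_cases j
    · exact absurd rfl hij
    · exact n1
    · exact n2
    · exact n1.symm
    · exact absurd rfl hij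
    · exact n3
    · exact n2.symm
    · exact n3.symm
    · exact absurd rfl hij
  have hQc : ∀ j, ContinuousAt (Q j) 0 := fun j =>
    ((hQd j).differentiableAt (isOpen_ball.mem_nhds (mem_ball_self hr))).continuousAt
  have hQe : ∀ i j, i ≠ j → ∀ᶠ t in 𝓝 (0 : ℂ), Q i t ≠ Q j t := by
    intro i j hij
    have h4 : Tendsto (fun t => Q i t - Q j t) (𝓝 0) (𝓝 (Q i 0 - Q j 0)) := (hQc i).sub (hQc j)
    filter_upwards [h4.eventually_ne (sub_ne_zero.2 (hQn i j hij))] with t ht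
    exact sub_ne_zero.1 ht
  -- the target
  obtain ⟨X, hX⟩ : ∃ X : ℂ → ℂ, X = fun t => b + t * β := ⟨_, rfl⟩
  have hX0 : X 0 = b := by rw [hX]; ring
  have hXa : ∀ t, AnalyticAt ℂ X t := by
    intro t
    rw [hX]
    exact analyticAt_const.add (analyticAt_id.mul analyticAt_const)
  have hXd : HasDerivAt X β 0 := by
    rw [hX]
    have h1 := ((hasDerivAt_id (0 : ℂ)).mul_const β).const_add b
    rw [one_mul] at h1
    exact h1
  have hXl : Tendsto (fun t => (X t : OnePoint ℂ)) (𝓝 0) (𝓝 (b : OnePoint ℂ)) := by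
    have h1 := (OnePoint.continuous_coe.tendsto (X 0)).comp (hXa 0).continuousAt.tendsto
    rw [hX0] at h1
    exact h1
  have hlim : Tendsto (fun t : ℂ => x0 + t • w) (𝓝 0) (𝓝 x0) := by
    have h2 : Continuous fun t : ℂ => x0 + t • w := by fun_prop
    have h3 := h2.tendsto 0
    rwa [zero_smul, add_zero] at h3
  have hall : ∀ᶠ t in 𝓝 (0 : ℂ), (∀ z ∈ W1, Att (Rf (ex d k (x0 + t • w))) z) ∧
      (∀ c, IsCrit (Rf (ex d k (x0 + t • w))) c → ∀ n : ℕ, (Rf (ex d k (x0 + t • w)))^[n] c ∉ W2) ∧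
      (X t : OnePoint ℂ) ∈ W1 ∧ (X t : OnePoint ℂ) ∈ W2 ∧ t ∈ ball (0 : ℂ) r ∧
      ∀ i j, i ≠ j → Q i t ≠ Q j t := by
    have hbr : ∀ᶠ t in 𝓝 (0 : ℂ), t ∈ ball (0 : ℂ) r := ball_mem_nhds (0 : ℂ) hr
    refine (hlim.eventually hA2).and ((hlim.eventually hC).and ((hXl.eventually hW1).and
      ((hXl.eventually hW2).and (hbr.and ?_))))
    rw [Filter.eventually_all]
    intro i
    rw [Filter.eventually_all]
    intro j
    by_cases hij : i = j
    · exact Filter.Eventually.of_forall fun t h => absurd hij h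
    · filter_upwards [hQe i j hij] with t ht _
      exact ht
  obtain ⟨ε, hε, hball⟩ := Metric.eventually_nhds_iff_ball.1 hall
  have hin : ∀ t : ℂ, ‖t‖ ≤ ε / 2 → t ∈ ball (0 : ℂ) ε := fun t ht =>
    mem_ball_zero_iff.2 (by linarith)
  have hle : ∀ t : ℂ, ‖t‖ ≤ ε / 2 → ‖t‖ ≤ r := fun t ht =>
    (mem_ball_zero_iff.1 (hball t (hin t ht)).2.2.2.2.1).le
  have hBD : ∀ j, BD v u (ε / 2) (Q j) X := by
    intro j
    refine ⟨by linarith, fun t ht => hcop t (hle t ht), fun t ht => hdeg t (hle t ht), fun t ht => ?_,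
      fun t ht => hXa t, fun t ht n hn => ?_, fun t ht c hcr n hn => ?_⟩
    · exact (hQd j).analyticAt (isOpen_ball.mem_nhds (hball t (hin t ht)).2.2.2.2.1)
    · obtain ⟨h1, -, h3, -, h5, -⟩ := hball t (hin t ht)
      have h6 := h1 _ h3
      rw [← hlin, ← hn] at h6
      have hcf : Continuous (Rf (v + t • u)) := rat_continuous (hcop t (hle t ht))
      have h7 := (Pool.Agent.H32.BT.att_iter hcf _ n).1 h6
      exact hQJ j t h5 (att_fs_ar (by omega) (hcop t (hle t ht)) (hdeg t (hle t ht)) (hAR t (hle t ht)) h7)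
    · obtain ⟨-, h2, -, h4, -, -⟩ := hball t (hin t ht)
      rw [hlin] at hcr hn
      exact h2 c hcr n (hn ▸ h4)
  obtain ⟨C, hC⟩ := vel_fat hBD (fun i j hij t ht => (hball t (hin t ht)).2.2.2.2.2 i j hij) hXd
  rw [← hv, ← hu]
  refine ⟨C, fun n z hz hzn => hC n z hz ?_⟩
  rw [hX0]
  exact hzn

end Pool.Agent.H57.PF
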