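import Pool.Agent.H57.PF.GEF
import Pool.Agent.H57.PF.VFF
import Pool.Agent.H44.NR.Dsa

/-!
# THEOREM P+ in the families

`mk_fatF`: the points of the Fatou set which are not critical and not post-critical are markers. `dis_coreF`: the contradiction for a generic map with `0`, `1` in the basin of infinity
(`pp_coreF` with wandering discs). `pp_disF`: the reduction: translation by a large number; `PA` is the image of the post-critical set and a trap of infinity.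
-/

set_option autoImplicit false

open Filter Topology Polynomial Metric Set MeasureTheory

namespace Pool.Agent.H57.PF

open Pool.Agent.H44.Fatou Pool.Agent.H32.BT Pool.Agent.H79.Eul Pool.Agent.H79.Par
open Pool.Agent.H35.EX Pool.Agent.H44.RR Pool.Agent.H56.HR Pool.Agent.H44.RC Pool.Agent.H47.RJ
open Pool.Agent.H47.NM Pool.Agent.H47.NN Pool.Agent.H44.ND Pool.Agent.H79.ES Pool.Agent.H44.RG
open Pool.Agent.H44.CP Pool.Agent.H47.PS Pool.Agent.H80.AJ Pool.Agent.H57.CF Pool.Agent.H64.MF Pool.Agent.H44.NR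
open Pool.Agent.H31.PP (SS dsc_wan)

variable {d k : ℕ} {v : E d}

/-- the part of the post-critical set in the Fatou set is closed -/
theorem pcf_closedG (hd : 2 ≤ d) (hcop : IsCoprime (pol v.1) (pol v.2))
    (hdeg : max (pol v.1).natDegree (pol v.2).natDegree = d)
    (hFA : ∀ x, x ∈ FS (Rf v) ↔ Att (Rf v) x) : IsClosed (PC (Rf v) ∩ FS (Rf v)) := by
  have hfin : {c | IsCrit (Rf v) c}.Finite := crit_finite hcop (by rw [hdeg]; omega)
  have hex : ∀ c : OnePoint ℂ, ∃ F, IsClosed F ∧ F ⊆ FS (Rf v) ∧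
      (c ∈ FS (Rf v) → ∀ n : ℕ, (Rf v)^[n] c ∈ F) := by
    intro c
    by_cases hc : c ∈ FS (Rf v)
    · obtain ⟨F, h1, h2, h3⟩ := orb_cl hd hcop hdeg ((hFA c).1 hc)
      exact ⟨F, h1, fun y hy => (hFA y).2 (h2 y hy), fun _ => h3⟩
    · exact ⟨∅, isClosed_empty, empty_subset _, fun h => absurd h hc⟩
  choose F hF1 hF2 hF3 using hex
  obtain ⟨G, hG⟩ : ∃ G, G = ⋃ c ∈ {c | IsCrit (Rf v) c}, F c := ⟨_, rfl⟩
  have hGc : IsClosed G := by
    rw [hG]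
    exact hfin.isClosed_biUnion fun c _ => hF1 c
  have hGF : G ⊆ FS (Rf v) := by
    rw [hG]
    exact iUnion₂_subset fun c _ => hF2 c
  have hsub : PC (Rf v) ⊆ G ∪ JS (Rf v) := by
    unfold PC
    refine closure_minimal ?_ (hGc.union (js_closed _))
    rintro y ⟨c, hc, n, hn, rfl⟩
    by_cases h : c ∈ FS (Rf v)
    · left
      rw [hG]
      exact mem_biUnion (x := c) hc (hF3 c h n)
    · right
      intro h1
      exact h ((fs_iff (by omega) hcop hdeg n c).1 h1)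
  have hE : PC (Rf v) ∩ FS (Rf v) = PC (Rf v) ∩ G := by
    ext x
    constructor
    · rintro ⟨h1, h2⟩
      rcases hsub h1 with h | h
      · exact ⟨h1, h⟩
      · exact absurd h2 h
    · rintro ⟨h1, h2⟩
      exact ⟨h1, hGF h2⟩
  rw [hE]
  exact (pc_closed _).inter hGc

/-- wandering discs -/
theorem wan_exG (hcop : IsCoprime (pol v.1) (pol v.2)) {y : ℂ} (hy : (y : OnePoint ℂ) ∈ FS (Rf v))
    (hyA : Att (Rf v) (y : OnePoint ℂ))
    (hper : ∀ n : ℕ, 0 < n → (Rf v)^[n] (y : OnePoint ℂ) ≠ (y : OnePoint ℂ)) {r0 : ℝ} (hr0 : 0 < r0) :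
    ∃ r : ℝ, 0 < r ∧ r ≤ r0 ∧ ∀ n : ℕ, 0 < n → ∀ z ∈ ball y r, ∀ z' ∈ ball y r,
      (Rf v)^[n] (z : OnePoint ℂ) ≠ (z' : OnePoint ℂ) := by
  obtain ⟨W, hW, hWn⟩ := orb_away hcop hyA hper
  obtain ⟨ε, hε, hεW⟩ := Pool.Agent.H47.RJ.ch_nhds hW
  have hEq : EqAt (Rf v) (y : OnePoint ℂ) := interior_subset hy
  have h1 := hEq (ε / 2) (half_pos hε)
  have h2 : {x | chord (y : OnePoint ℂ) x < ε / 2} ∈ 𝓝 (y : OnePoint ℂ) :=
    Pool.Agent.H47.RJ.ch_ball _ (half_pos hε)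
  have h3 : ∀ᶠ z : ℂ in 𝓝 y, (∀ n : ℕ, chord ((Rf v)^[n] (y : OnePoint ℂ)) ((Rf v)^[n] (z : OnePoint ℂ)) < ε / 2) ∧
      chord (y : OnePoint ℂ) (z : OnePoint ℂ) < ε / 2 :=
    OnePoint.continuous_coe.continuousAt.eventually (h1.and h2)
  obtain ⟨r, hr, h4⟩ := Metric.mem_nhds_iff.1 h3
  refine ⟨min r r0, lt_min hr hr0, min_le_right _ _, ?_⟩
  intro n hn z hz z' hz' he
  have h5 := (h4 (ball_subset_ball (min_le_left _ _) hz)).1 n
  have h6 := (h4 (ball_subset_ball (min_le_left _ _) hz')).2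
  rw [he] at h5
  apply hWn n hn
  apply hεW
  have h7 := Pool.Agent.H47.RJ.ch_tri (y : OnePoint ℂ) (z' : OnePoint ℂ) ((Rf v)^[n] (y : OnePoint ℂ))
  rw [chord_comm (z' : OnePoint ℂ)] at h7
  linarith

/-- markers in the Fatou set -/
theorem mk_fatF (hd : 2 ≤ d) (hk : 2 ≤ k) (hkd : k ≤ d) {x0 : Em d k} (hg : GenM d k (pol x0.1) (pol x0.2))
    (hup : ¬ UpF d k x0) (hFA : ∀ x, x ∈ FS (Rf (ex d k x0)) ↔ Att (Rf (ex d k x0)) x) {K1 : Set ℂ}
    (hK : IsCompact K1) (hKJ : ∀ z ∈ K1, (z : OnePoint ℂ) ∈ JS (Rf (ex d k x0))) {c1 : OnePoint ℂ}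
    (hc1 : c1 ∈ JS (Rf (ex d k x0))) {b : ℂ}
    (hb : (b : OnePoint ℂ) ∈ FS (Rf (ex d k x0))) (hbP : (b : OnePoint ℂ) ∉ PC (Rf (ex d k x0)))
    (hbc : ¬ IsCrit (Rf (ex d k x0)) (b : OnePoint ℂ)) : MkF k (ex d k x0) K1 b := by
  refine ⟨?_, ?_⟩
  · obtain ⟨F, hF1, hF2, hF3⟩ := orb_cl hd (ex_cop hg.cop) (ex_deg (genM_deg hg)) ((hFA _).1 hb)
    have hFc : IsClosed ((fun z : ℂ => (z : OnePoint ℂ)) ⁻¹' F) := hF1.preimage OnePoint.continuous_coe
    have hdis : Disjoint K1 ((fun z : ℂ => (z : OnePoint ℂ)) ⁻¹' F) := by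
      rw [Set.disjoint_left]
      intro z hz1 hz2
      exact hKJ z hz1 ((hFA _).2 (hF2 _ hz2))
    obtain ⟨η, hη, h⟩ := hdis.exists_thickenings hK hFc
    refine ⟨η, hη, ?_⟩
    intro n u hu he
    have h1 : u ∈ (fun z : ℂ => (z : OnePoint ℂ)) ⁻¹' F := by
      show (u : OnePoint ℂ) ∈ F
      rw [← he]
      exact hF3 n
    exact Set.disjoint_left.1 h hu (self_subset_thickening hη _ h1)
  · intro w hw β
    obtain ⟨w', rfl⟩ := dm_ex hk hkd hw
    obtain ⟨C, hC⟩ := vfatF hd hk hkd hg hup hc1 ((hFA _).1 hb) hbP hbc w' β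
    refine ⟨C, fun n z hz hzn => ?_⟩
    obtain ⟨u, h1, h2, h3⟩ := hC n z hz hzn
    exact ⟨u, h1, h2, h3 0 (Nat.zero_le n)⟩

theorem pc_subF {PA : Set (OnePoint ℂ)} (sys : Sys0 (pol v.1) (pol v.2) PA) : PC (Rf v) ⊆ PA := by
  unfold PC
  refine closure_minimal ?_ sys.closed
  rintro y ⟨c, hc, n, hn, rfl⟩
  obtain ⟨m, rfl⟩ : ∃ m, n = m + 1 := ⟨n - 1, by omega⟩
  clear hn
  induction m with
  | zero => exact sys.crit c hc
  | succ m ih =>
    rw [Function.iterate_succ_apply']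
    exact sys.inv _ ih

/-- a neighbourhood of infinity contains the complement of a disc -/
theorem big_of_nhds {W : Set (OnePoint ℂ)} (hW : W ∈ 𝓝 (OnePoint.infty : OnePoint ℂ)) :
    ∃ R : ℝ, 0 < R ∧ ∀ z : ℂ, R ≤ ‖z‖ → (z : OnePoint ℂ) ∈ W := by
  have h1 : Tendsto (fun z : ℂ => (z : OnePoint ℂ)) (Filter.cocompact ℂ) (𝓝 OnePoint.infty) := by
    rw [← Filter.coclosedCompact_eq_cocompact]
    exact OnePoint.tendsto_coe_infty
  have h2 : ∀ᶠ z : ℂ in Filter.cocompact ℂ, (z : OnePoint ℂ) ∈ W := h1.eventually hW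
  rw [← Metric.cobounded_eq_cocompact,
    (Metric.hasBasis_cobounded_compl_closedBall (0 : ℂ)).eventually_iff] at h2
  obtain ⟨R0, -, hR0⟩ := h2
  refine ⟨max (R0 + 1) 1, lt_of_lt_of_le one_pos (le_max_right _ _), fun z hz => hR0 ?_⟩
  intro h3
  have h4 := mem_closedBall_zero_iff.1 h3
  have h5 := (le_max_left (R0 + 1) 1).trans hz
  linarith

theorem dis_coreF (hd : 2 ≤ d) (hk : 2 ≤ k) (hkd : k ≤ d) {x0 : Em d k} (hg : GenM d k (pol x0.1) (pol x0.2))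
    (hup : ¬ UpF d k x0) (hv : v = ex d k x0) (hFA : ∀ x, x ∈ FS (Rf v) ↔ Att (Rf v) x)
    {PA : Set (OnePoint ℂ)} (sys : Sys0 (pol v.1) (pol v.2) PA)
    (z0 : ((0 : ℂ) : OnePoint ℂ) ∈ PA) (z1 : ((1 : ℂ) : OnePoint ℂ) ∈ PA)
    (f0 : ((0 : ℂ) : OnePoint ℂ) ∈ FS (Rf v)) (f1 : ((1 : ℂ) : OnePoint ℂ) ∈ FS (Rf v))
    (hbig : PA ∈ 𝓝 (OnePoint.infty : OnePoint ℂ)) {c : ℂ} (hc : IsCrit (Rf v) (c : OnePoint ℂ))
    (hcJ : (c : OnePoint ℂ) ∈ JS (Rf v)) {P1 : Set (OnePoint ℂ)} (hP1 : IsClosed P1)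
    (hPJ : P1 ⊆ JS (Rf v)) (hcP : (c : OnePoint ℂ) ∈ P1) (hsep : IsClosed (PA \ P1))
    (hvP : ∀ n : ℕ, 1 ≤ n → (Rf v)^[n] (c : OnePoint ℂ) ∉ P1) : False := by
  have hcop : IsCoprime (pol v.1) (pol v.2) := by
    rw [hv]
    exact ex_cop hg.cop
  have hdeg : max (pol v.1).natDegree (pol v.2).natDegree = d := by
    rw [hv]
    exact ex_deg (genM_deg hg)
  have hFam : Pool.Agent.H79.GP.Fam d k v := by
    rw [hv]
    exact fam_ex hk hkd hg
  have fi : OnePoint.infty ∈ FS (Rf v) := (inf_sink hFam one_pos).2.2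
  have hrd : Pool.Agent.H61.TT.RatD d (pol v.1) (pol v.2) := ⟨hd, hcop, hdeg⟩
  have hjs : ∀ (n : ℕ) (x : OnePoint ℂ), x ∈ JS (Rf v) → (Rf v)^[n] x ∈ JS (Rf v) :=
    fun n x hx h => hx ((fs_iff (by omega) hcop hdeg n x).1 h)
  -- the compact set
  obtain ⟨K1, hK1⟩ : ∃ K1 : Set ℂ, K1 = (fun z : ℂ => (z : OnePoint ℂ)) ⁻¹' P1 := ⟨_, rfl⟩
  have hKm : ∀ z, z ∈ K1 ↔ (z : OnePoint ℂ) ∈ P1 := by
    intro z
    rw [hK1]
    rfl
  have hKi : (fun z : ℂ => (z : OnePoint ℂ)) '' K1 = P1 := by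
    ext x
    constructor
    · rintro ⟨z, hz, rfl⟩
      exact (hKm z).1 hz
    · intro hx
      have hxi : x ≠ OnePoint.infty := by
        rintro rfl
        exact hPJ hx fi
      obtain ⟨z, rfl⟩ := OnePoint.ne_infty_iff_exists.1 hxi
      exact ⟨z, (hKm z).2 hx, rfl⟩
  have hKc : IsCompact K1 := by
    have h1 : IsOpen ((fun z : ℂ => (z : OnePoint ℂ)) '' K1)ᶜ := by
      rw [hKi]
      exact hP1.isOpen_compl
    exact (OnePoint.isOpen_compl_image_coe.1 h1).2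
  have hKJ : ∀ z ∈ K1, (z : OnePoint ℂ) ∈ JS (Rf v) := fun z hz => hPJ ((hKm z).1 hz)
  -- the critical value
  have hfcJ : (Rf v) (c : OnePoint ℂ) ∈ JS (Rf v) := hjs 1 _ hcJ
  have hqc : (pol v.2).eval c ≠ 0 := by
    intro h0
    apply hfcJ
    have h1 : (Rf v) (c : OnePoint ℂ) = OnePoint.infty := by
      unfold Rf
      rw [rat_coe, h0]
      unfold pt
      rw [if_pos rfl]
    rw [h1]
    exact fi
  have hgg : ((Pool.Agent.H61.TT.gg (pol v.1) (pol v.2) c : ℂ) : OnePoint ℂ) =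
      (Rf v) (c : OnePoint ℂ) := by
    unfold Rf
    rw [rat_coe_of_ne hqc]
    rfl
  have hjp := Pool.Agent.H1.PU.jp_of hrd hcJ
  have hcr : {x : OnePoint ℂ | IsCrit (Rf v) x}.Countable :=
    (crit_finite hcop (by rw [hdeg]; omega)).countable
  have hFne : (FS (Rf v)).Nonempty := ⟨_, fi⟩
  have hKp := Pool.Agent.H80.AJ.KK_pos
  refine pp_coreF (k := k) (v := v) (PA := PA) (c := c) (K1 := K1) hFam hrd sys z0 z1 (crit_coe hc) hqc ?_ ?_
    ?_ hKc ((hKm c).2 hcP) ?_ ?_ ?_ ?_ ?_ ?_ (big_of_nhds hbig) ?_ ?_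
  · intro h0
    rw [h0] at hgg
    rw [← hgg] at hfcJ
    exact hfcJ f0
  · intro h0
    rw [h0] at hgg
    rw [← hgg] at hfcJ
    exact hfcJ f1
  · rw [hgg]
    exact sys.crit _ hc
  · rw [hKi]
    exact hsep
  · intro h
    exact hKJ 0 h f0
  · intro h
    exact hKJ 1 h f1
  · intro n u hu he
    apply hvP (n + 1) (by omega)
    rw [Function.iterate_succ_apply, ← hgg]
    have h1 : (Rf v)^[n] ((Pool.Agent.H61.TT.gg (pol v.1) (pol v.2) c : ℂ) : OnePoint ℂ) =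
      (u : OnePoint ℂ) := he
    rw [h1]
    exact (hKm u).1 hu
  · intro ε hε
    obtain ⟨m, u, hu, hum⟩ := hjp.tr (Pool.Agent.H61.TT.gg (pol v.1) (pol v.2) c)
      (by rw [hgg]; exact hfcJ) _ hcJ ε hε
    exact ⟨u, mem_ball_iff_norm.1 hu, m, hum⟩
  · intro ζ hζ _ ε hε
    obtain ⟨r, hr, hoff⟩ := exists_off sys.closed hζ
    have hr' : 0 < min ε r := lt_min hε hr
    obtain ⟨b, hb1, hb2, hb3⟩ := fs_avoid hd hcop hdeg hFne ζ hr' hcr
    refine ⟨b, mem_ball_iff_norm.1 (ball_subset_ball (min_le_left _ _) hb1), ?_⟩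
    have hbP : (b : OnePoint ℂ) ∉ PC (Rf v) := by
      intro h
      have h1 := pc_subF sys h
      refine hoff b ?_ h1
      refine ball_subset_ball ?_ hb1
      refine (min_le_right ε r).trans ?_
      linarith
    rw [hv] at hFA hKJ hcJ hb2 hb3 hbP ⊢
    exact mk_fatF hd hk hkd hg hup hFA hKc hKJ hcJ hb2 hbP hb3
  · obtain ⟨R, hR, h1⟩ := big_of_nhds ((Pool.Agent.H47.RJ.fs_open (Rf v)).mem_nhds fi)
    refine ⟨R, hR, fun z hz n u hu he => ?_⟩
    have h2 : (Rf v)^[n] (z : OnePoint ℂ) ∈ FS (Rf v) := (fs_iff (by omega) hcop hdeg n _).2 (h1 z hz)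
    have h3 : (Rf v)^[n] (z : OnePoint ℂ) = (u : OnePoint ℂ) := he
    rw [h3] at h2
    exact hKJ u hu h2
  · intro T hT hKT hTPA x hxT hxP hxK
    obtain ⟨r2, hr2, hoff⟩ := exists_off sys.closed hxP
    obtain ⟨r1, hr1, hball⟩ := Metric.isOpen_iff.1 hT x hxT
    have hxc : 0 < ‖c - x‖ := by
      rw [norm_pos_iff, sub_ne_zero]
      rintro rfl
      exact hxK ((hKm c).2 hcP)
    obtain ⟨s, hs⟩ : ∃ s : ℝ, s = min (min r1 ‖c - x‖ / 8) (r2 / (131072 * Pool.Agent.H80.AJ.KK)) :=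
      ⟨_, rfl⟩
    have hs0 : 0 < s := by
      rw [hs]
      refine lt_min ?_ ?_
      · have := lt_min hr1 hxc
        positivity
      · positivity
    have hs1 : 8 * s ≤ r1 := by
      have h1 : s ≤ min r1 ‖c - x‖ / 8 := by rw [hs]; exact min_le_left _ _
      have h2 := min_le_left r1 ‖c - x‖
      linarith
    have hs2 : 8 * s ≤ ‖c - x‖ := by
      have h1 : s ≤ min r1 ‖c - x‖ / 8 := by rw [hs]; exact min_le_left _ _
      have h2 := min_le_right r1 ‖c - x‖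
      linarith
    have hrho : Pool.Agent.H1.PU.rho s ≤ r2 := by
      unfold Pool.Agent.H1.PU.rho
      have h1 : s ≤ r2 / (131072 * Pool.Agent.H80.AJ.KK) := by rw [hs]; exact min_le_right _ _
      rw [le_div_iff₀ (by positivity)] at h1
      linarith
    have hps : Pool.Agent.H42.PP.PS0 d (pol v.1) (pol v.2) PA x s := by
      refine ⟨sys, hrd, z0, z1, hs0, ?_⟩
      intro u hu
      refine hoff u (ball_subset_ball ?_ hu)
      refine hrho.trans ?_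
      linarith
    obtain ⟨y, hy1, hy2, hy3⟩ := fs_avoid hd hcop hdeg hFne x (half_pos hs0) (per_cnt hd hcop hdeg)
    obtain ⟨r, hr, hrs, hw⟩ := wan_exG hcop hy2 ((hFA _).1 hy2)
      (fun n hn h => hy3 ⟨n, hn, h⟩) (half_pos hs0)
    have hsub : ball y r ⊆ ball x s := by
      intro z hz
      rw [mem_ball] at hz hy1 ⊢
      linarith [dist_triangle z y x]
    refine ⟨s, dsc_wan hps hr hsub hw ?_ ?_⟩
    · exact (ball_subset_ball hs1).trans hball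
    · rw [mem_ball, dist_eq_norm]
      exact not_lt.2 hs2

end Pool.Agent.H57.PF
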