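import Pool.Agent.H57.PF.MNF
import Pool.Agent.H31.PP.VeG

/-!
# THEOREM P+ in the families: the geometry

As `pp_core` (H31/PP/Geo), in the dissipative case, with a neighbourhood of infinity in `PA`.
-/

set_option autoImplicit false

open Filter Topology Polynomial OnePoint Metric Set MeasureTheory

namespace Pool.Agent.H57.PF

open Pool.Agent.H44.Fatou Pool.Agent.H32.BT Pool.Agent.H80.AJ Pool.Agent.H35.EX Pool.Agent.H61.TT
open Pool.Agent.H79.Eul Pool.Agent.H79.Par Pool.Agent.H47.NN Pool.Agent.H71.Top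
open Pool.Agent.H42.PP Pool.Agent.H31.PP
open Pool.Agent.H79.GP (Dm Fam)

variable {d k : ℕ} {v : E d} {PA : Set (OnePoint ℂ)} {c : ℂ} {K1 : Set ℂ}

/-- a marker: its orbit stays away from `K1`, and the velocities of the points which land at it are bounded -/
def MkF {d : ℕ} (k : ℕ) (v : E d) (K1 : Set ℂ) (b : ℂ) : Prop :=
  (∃ η : ℝ, 0 < η ∧ b ∈ SS (pol v.1) (pol v.2) (thickening η K1)) ∧ VMF k v b

private theorem geo_min {ι : Type} (F : Finset ι) (f : ι → ℝ) (hf : ∀ x ∈ F, 0 < f x) {a : ℝ} (ha : 0 < a) :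
    ∃ e : ℝ, 0 < e ∧ e ≤ a ∧ ∀ x ∈ F, e ≤ f x := by
  classical
  induction F using Finset.induction_on with
  | empty => exact ⟨a, ha, le_rfl, fun x hx => absurd hx (Finset.notMem_empty x)⟩
  | insert y F hy ih =>
    obtain ⟨e, h1, h2, h3⟩ := ih fun x hx => hf x (Finset.mem_insert_of_mem hx)
    refine ⟨min e (f y), lt_min h1 (hf y (Finset.mem_insert_self y F)), (min_le_left _ _).trans h2, fun x hx => ?_⟩
    rcases Finset.mem_insert.1 hx with rfl | hx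
    · exact min_le_right _ _
    · exact (min_le_left _ _).trans (h3 x hx)

/-- a smooth cut-off function for a compact set -/
private theorem geo_cut (hK : IsCompact K1) {η : ℝ} (hη : 0 < η) : ∃ χ : ℂ → ℂ, ContDiff ℝ 1 χ ∧ HasCompactSupport χ ∧
    tsupport χ ⊆ thickening η K1 ∧ ∀ x ∈ K1, ∀ᶠ y in 𝓝 x, χ y = 1 := by
  have h2 : 0 < η / 2 := by linarith
  have hsub : K1 ⊆ interior (cthickening (η / 2) K1) :=
    (self_subset_thickening h2 K1).trans (interior_maximal (thickening_subset_cthickening _ _) isOpen_thickening)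
  obtain ⟨f, hf1, hf0, -⟩ := exists_contMDiffMap_one_nhds_of_subset_interior (n := (⊤ : ℕ∞))
    (modelWithCornersSelf ℝ ℂ) hK.isClosed hsub
  have hz : ∀ x, x ∉ cthickening (η / 2) K1 → ((f x : ℝ) : ℂ) = 0 := fun x hx => by rw [hf0 x hx, Complex.ofReal_zero]
  refine ⟨fun z => ((f z : ℝ) : ℂ), ?_, HasCompactSupport.intro hK.cthickening hz, ?_, fun x hx => ?_⟩
  · have h3 : ContDiff ℝ 1 f := f.contMDiff.contDiff.of_le (by exact_mod_cast le_top)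
    exact Complex.ofRealCLM.contDiff.comp h3
  · refine (closure_minimal (fun x hx => ?_) isClosed_cthickening).trans
      (cthickening_subset_thickening' hη (half_lt_self hη) K1)
    by_contra hcon
    exact hx (hz x hcon)
  · have h3 := eventually_nhdsSet_iff_forall.1 hf1 x hx
    filter_upwards [h3] with y hy
    rw [hy, Complex.ofReal_one]

private theorem geo_dbar {χ : ℂ → ℂ} {x a : ℂ} (h : ∀ᶠ y in 𝓝 x, χ y = a) : x ∉ tsupport (dbar1 χ) := by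
  rw [notMem_tsupport_iff_eventuallyEq]
  filter_upwards [eventually_eventually_nhds.2 h] with y hy
  have h2 : χ =ᶠ[𝓝 y] fun _ => a := hy
  unfold dbar1
  rw [h2.fderiv_eq]
  simp

theorem pp_coreF (hFam : Fam d k v) (rd : RatD d (pol v.1) (pol v.2)) (sys : Sys0 (pol v.1) (pol v.2) PA)
    (z0 : ((0 : ℂ) : OnePoint ℂ) ∈ PA) (z1 : ((1 : ℂ) : OnePoint ℂ) ∈ PA)
    (hw : (ww (pol v.1) (pol v.2)).eval c = 0) (hqc : (pol v.2).eval c ≠ 0)
    (v0 : gg (pol v.1) (pol v.2) c ≠ 0) (v1 : gg (pol v.1) (pol v.2) c ≠ 1)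
    (vPA : ((gg (pol v.1) (pol v.2) c : ℂ) : OnePoint ℂ) ∈ PA)
    (hK : IsCompact K1) (hcK : c ∈ K1)
    (hsep : IsClosed (PA \ (fun z : ℂ => (z : OnePoint ℂ)) '' K1))
    (h0 : (0 : ℂ) ∉ K1) (h1 : (1 : ℂ) ∉ K1)
    (hvK : ∀ (n : ℕ), ∀ u ∈ K1,
      (rat (pol v.1) (pol v.2))^[n] ((gg (pol v.1) (pol v.2) c : ℂ) : OnePoint ℂ) ≠ (u : OnePoint ℂ))
    (hit : ∀ ε : ℝ, 0 < ε → ∃ z : ℂ, ‖z - gg (pol v.1) (pol v.2) c‖ < ε ∧
      ∃ j : ℕ, (rat (pol v.1) (pol v.2))^[j] (z : OnePoint ℂ) = (c : OnePoint ℂ))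
    (hmk : ∀ ζ : ℂ, (ζ : OnePoint ℂ) ∉ PA → ζ ∉ K1 → ∀ ε : ℝ, 0 < ε →
      ∃ b : ℂ, ‖b - ζ‖ < ε ∧ MkF k v K1 b)
    (hbig : ∃ R : ℝ, 0 < R ∧ ∀ z : ℂ, R ≤ ‖z‖ → (z : OnePoint ℂ) ∈ PA)
    (hbK : ∃ R : ℝ, 0 < R ∧ ∀ z : ℂ, R ≤ ‖z‖ → ∀ (n : ℕ), ∀ u ∈ K1,
      (rat (pol v.1) (pol v.2))^[n] (z : OnePoint ℂ) ≠ (u : OnePoint ℂ))
    (hds : ∀ T : Set ℂ, IsOpen T → K1 ⊆ T → (∀ x ∈ T, (x : OnePoint ℂ) ∈ PA → x ∈ K1) →
        ∀ x ∈ T, (x : OnePoint ℂ) ∉ PA → x ∉ K1 →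
          ∃ s : ℝ, Dsc d (pol v.1) (pol v.2) PA ∅ ∅ T c x s) : False := by
  classical
  -- (1)
  obtain ⟨PB, hPB⟩ : ∃ PB : Set ℂ, PB = (fun z : ℂ => (z : OnePoint ℂ)) ⁻¹' (PA \ (fun z : ℂ => (z : OnePoint ℂ)) '' K1) :=
    ⟨_, rfl⟩
  have hPBc : IsClosed PB := by
    rw [hPB]
    exact hsep.preimage OnePoint.continuous_coe
  have hdis : Disjoint K1 PB := by
    rw [Set.disjoint_left]
    intro x hx hx'
    rw [hPB] at hx'
    exact hx'.2 ⟨x, hx, rfl⟩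
  obtain ⟨η₀, hη₀, hd⟩ := hdis.exists_cthickenings hK hPBc
  obtain ⟨G, hG⟩ : ∃ G : Set ℂ, G = thickening η₀ K1 := ⟨_, rfl⟩
  have hKG : K1 ⊆ G := by rw [hG]; exact self_subset_thickening hη₀ K1
  have hGo : IsOpen G := by rw [hG]; exact isOpen_thickening
  have hGPA : ∀ u ∈ closure G, (u : OnePoint ℂ) ∈ PA → u ∈ K1 := by
    intro u hu huA
    by_contra hcon
    have h2 : u ∈ cthickening η₀ K1 := by
      rw [hG] at hu
      exact closure_thickening_subset_cthickening _ _ hu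
    have h3 : u ∈ PB := by
      rw [hPB]
      refine ⟨huA, ?_⟩
      rintro ⟨w, hw, hwu⟩
      rw [OnePoint.coe_injective hwu] at hw
      exact hcon hw
    exact Set.disjoint_left.1 hd h2 (self_subset_cthickening PB h3)
  have hGb : Bornology.IsBounded G := by
    rw [hG]
    exact hK.isBounded.thickening
  obtain ⟨R, hR0, hGR⟩ := hGb.subset_ball_lt 0 0
  obtain ⟨δ, hδ⟩ : ∃ δ, δ = η₀ / 2 := ⟨_, rfl⟩
  have hδ0 : 0 < δ := by rw [hδ]; linarith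
  have hδG : ∀ u ∈ thickening (η₀ / 2) K1, ball u δ ⊆ G := by
    intro u hu w hw
    rw [mem_thickening_iff] at hu
    obtain ⟨z, hz, hzu⟩ := hu
    rw [hG, mem_thickening_iff]
    refine ⟨z, hz, ?_⟩
    have := dist_triangle w u z
    rw [mem_ball, hδ] at hw
    linarith
  have hM0 : 0 < MM R δ := by
    unfold MM
    have h2 := KK_pos
    positivity
  -- (2)
  have hfr : ∀ ζ ∈ frontier G, ζ ∉ K1 ∧ (ζ : OnePoint ℂ) ∉ PA := by
    intro ζ hζ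
    have h2 : ζ ∉ G := by
      rw [hGo.frontier_eq] at hζ
      exact hζ.2
    have h3 : ζ ∉ K1 := fun h3 => h2 (hKG h3)
    exact ⟨h3, fun h4 => h3 (hGPA ζ (frontier_subset_closure hζ) h4)⟩
  have hex : ∀ ζ ∈ frontier G, ∃ (b' : ℂ) (t : ℝ), 0 < t ∧ ‖b' - ζ‖ < t / 2 ∧ Off PA b' (MM R δ * t) ∧ MkF k v K1 b' := by
    intro ζ hζ
    obtain ⟨h2, h3⟩ := hfr ζ hζ
    obtain ⟨r, hr, hoff⟩ := exists_off sys.closed h3
    obtain ⟨t, ht⟩ : ∃ t, t = r / (MM R δ + 1) := ⟨_, rfl⟩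
    have ht0 : 0 < t := by rw [ht]; positivity
    have htr : t * (MM R δ + 1) = r := by rw [ht]; field_simp
    obtain ⟨b', hb1, hb2⟩ := hmk ζ h3 h2 (t / 2) (by linarith)
    refine ⟨b', t, ht0, hb1, fun u hu => hoff u ?_, hb2⟩
    rw [mem_ball] at hu ⊢
    have h4 := dist_triangle u b' ζ
    rw [dist_eq_norm b' ζ] at h4
    nlinarith
  choose! fb ft hft0 hfb hfo hfm using hex
  have hfc : IsCompact (frontier G) :=
    Metric.isCompact_of_isClosed_isBounded isClosed_frontier (hGb.closure.subset frontier_subset_closure)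
  obtain ⟨F, hF1, hF2⟩ := hfc.elim_nhds_subcover (fun ζ => ball ζ (ft ζ / 2)) fun ζ hζ =>
    ball_mem_nhds ζ (by have := hft0 ζ hζ; linarith)
  obtain ⟨b, hb⟩ : ∃ b, b = F.image fb := ⟨_, rfl⟩
  -- (3)
  have hmη : ∀ ζ ∈ frontier G, ∃ η : ℝ, 0 < η ∧ fb ζ ∈ SS (pol v.1) (pol v.2) (thickening η K1) :=
    fun ζ hζ => (hfm ζ hζ).1
  choose! fη hη0 hηS using hmη
  obtain ⟨η₁, hη₁, hη₁', hη₁F⟩ := geo_min F fη (fun x hx => hη0 x (hF1 x hx)) (half_pos hη₀)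
  obtain ⟨T, hT⟩ : ∃ T : Set ℂ, T = thickening η₁ K1 := ⟨_, rfl⟩
  have hTo : IsOpen T := by rw [hT]; exact isOpen_thickening
  have hKT : K1 ⊆ T := by rw [hT]; exact self_subset_thickening hη₁ K1
  have hTG : T ⊆ G := by rw [hT, hG]; exact thickening_mono (by linarith) K1
  have hTPA : ∀ x ∈ T, (x : OnePoint ℂ) ∈ PA → x ∈ K1 := fun x hx => hGPA x (subset_closure (hTG hx))
  have hbS : ∀ b' ∈ b, b' ∈ SS (pol v.1) (pol v.2) T := by
    intro b' hb'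
    rw [hb, Finset.mem_image] at hb'
    obtain ⟨ζ, hζ, rfl⟩ := hb'
    intro n u hu
    refine hηS ζ (hF1 ζ hζ) n u ?_
    rw [hT] at hu
    exact thickening_mono (hη₁F ζ hζ) K1 hu
  -- (4)
  obtain ⟨χ, hχ1, hχ2, hχ3, hχ4⟩ := geo_cut hK hη₁
  rw [← hT] at hχ3
  have hcut : Cut PA T c χ := by
    refine ⟨hχ1, hχ2, hχ3, hχ4 c hcK, fun x hx hxA => ?_⟩
    have h2 : x ∈ tsupport χ := by
      by_contra hcon
      refine geo_dbar (a := 0) ?_ hx
      exact notMem_tsupport_iff_eventuallyEq.1 hcon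
    exact geo_dbar (hχ4 x (hTPA x (hχ3 h2) hxA)) hx
  -- (5)
  have hcov := hds T hTo hKT hTPA
  have hvG : ∀ (n : ℕ), ∀ u ∈ closure G,
      (rat (pol v.1) (pol v.2))^[n] ((gg (pol v.1) (pol v.2) c : ℂ) : OnePoint ℂ) ≠ (u : OnePoint ℂ) := by
    intro n u hu he
    have h2 : (u : OnePoint ℂ) ∈ PA := by
      rw [← he]
      exact iter_mem sys.inv vPA n
    exact hvK n u (hGPA u hu h2) he
  have hcov' : ∀ x ∈ tsupport (dbar1 χ), ∃ s : ℝ, Dsc d (pol v.1) (pol v.2) PA ∅ ∅ T c x s := by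
    intro x hx
    have h2 : x ∈ tsupport χ := by
      by_contra hcon
      refine geo_dbar (a := 0) ?_ hx
      exact notMem_tsupport_iff_eventuallyEq.1 hcon
    exact hcov x (hχ3 h2) (hcut.off x hx) fun h3 => geo_dbar (hχ4 x h3) hx
  have hbS' : ∃ R : ℝ, 0 < R ∧ ∀ z : ℂ, R ≤ ‖z‖ → (z : OnePoint ℂ) ∈ PA ∧ z ∈ SS (pol v.1) (pol v.2) T := by
    obtain ⟨R1, hR1, h2⟩ := hbig
    obtain ⟨R2, hR2, h3⟩ := hbK
    refine ⟨max R1 R2, lt_max_of_lt_left hR1, fun z hz => ?_⟩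
    have h4 := h2 z ((le_max_left _ _).trans hz)
    refine ⟨h4, fun n u hu he => ?_⟩
    have h5 : (u : OnePoint ℂ) ∈ PA := by
      rw [← he]
      exact iter_mem sys.inv h4 n
    exact h3 z ((le_max_right _ _).trans hz) n u (hTPA u hu h5) he
  refine pp_falseF (k := k) (v := v) (PA := PA) (c := c) (T := T) (χ := χ) (b := b)
    ⟨hFam, rd, sys, hw, hqc, v0, v1, vPA, fun n u hu => hvG n u (subset_closure (hTG hu)), hcut,
      fun h2 => h0 (hTPA 0 h2 z0), fun h2 => h1 (hTPA 1 h2 z1), hcov', hbS'⟩ (fun x hx => ?_) ?_ fun x hx => ?_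
  · rw [hb, Finset.mem_image] at hx
    obtain ⟨ζ, hζ, rfl⟩ := hx
    have h2 := hft0 ζ (hF1 ζ hζ)
    exact hfo ζ (hF1 ζ hζ) _ (mem_ball_self (by positivity))
  · refine vee_geo sys rd z0 z1 vPA hGo hGR hδ0 (fun u hu => hδG u ?_) hvG (fun ε hε => ?_) (fun ζ hζ => ?_) hbS
    · rw [hT] at hu
      exact thickening_mono hη₁' K1 hu
    · obtain ⟨z, hz, j, hj⟩ := hit ε hε
      exact ⟨z, hz, j, c, subset_closure (hKG hcK), hj⟩
    · have h2 := hF2 hζ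
      simp only [Set.mem_iUnion] at h2
      obtain ⟨x, hx, hxζ⟩ := h2
      refine ⟨fb x, ?_, ft x, hft0 x (hF1 x hx), ?_, hfo x (hF1 x hx)⟩
      · rw [hb, Finset.mem_image]
        exact ⟨x, hx, rfl⟩
      · rw [mem_ball, dist_eq_norm] at hxζ
        have h3 := hfb x (hF1 x hx)
        have h4 : ζ - fb x = (ζ - x) - (fb x - x) := by ring
        rw [h4]
        have h5 := norm_sub_le (ζ - x) (fb x - x)
        linarith
  · rw [hb, Finset.mem_image] at hx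
    obtain ⟨ζ, hζ, rfl⟩ := hx
    exact (hfm ζ (hF1 ζ hζ)).2

end Pool.Agent.H57.PF
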