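import Pool.Agent.H57.PF.DSF
import Pool.Agent.H42.PR.Cmp
import Pool.Agent.H44.NR.Spx
import Pool.Agent.H64.JS.CNK

/-!
# THEOREM P+ in the families: the statements

`pp_disG`: generic maps (translation by a large number); `pp_disF`: all maps of the families. `pphF`: the component of a Julia critical point in the closure of the orbits of the
Julia critical points meets the closed forward orbit of the critical value; `cmp_upF`: the same for the post-critical set. `td_upF`: the totally disconnected case.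
-/

set_option autoImplicit false

open Filter Topology Polynomial Metric Set MeasureTheory

namespace Pool.Agent.H57.PF

open Pool.Agent.H44.Fatou Pool.Agent.H32.BT Pool.Agent.H79.Eul Pool.Agent.H79.Par
open Pool.Agent.H35.EX Pool.Agent.H44.RR Pool.Agent.H56.HR Pool.Agent.H44.RC Pool.Agent.H47.RJ
open Pool.Agent.H47.NM Pool.Agent.H47.NN Pool.Agent.H44.ND Pool.Agent.H79.ES Pool.Agent.H44.RG
open Pool.Agent.H44.CP Pool.Agent.H47.PS Pool.Agent.H80.AJ Pool.Agent.H57.CF Pool.Agent.H64.MF Pool.Agent.H44.NR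

variable {d k : ℕ}

/-- a large translation of a generic map is generic -/
theorem big_tr (hk : 2 ≤ k) (hkd : k ≤ d) {x : Em d k} (hg : GenM d k (pol x.1) (pol x.2))
    {W : Set (OnePoint ℂ)} (hW : W ∈ 𝓝 (OnePoint.infty : OnePoint ℂ)) :
    ∃ s : ℂ, GenM d k (pol (Tr d k s x).1) (pol (Tr d k s x).2) ∧ (s : OnePoint ℂ) ∈ W ∧
      ((s + 1 : ℂ) : OnePoint ℂ) ∈ W := by
  have hcop := hg.cop
  have hdeg := genM_deg hg
  have ha := fam_a hk hkd hdeg
  have hQ0 : pol x.2 ≠ 0 := den_ne_zero hcop (by rw [hdeg]; omega)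
  have hR0 : pol x.1 - X * pol x.2 ≠ 0 := by
    intro h
    have h1 := sub_eq_zero.1 h
    have h2 : (X * pol x.2).natDegree ≤ d - k + 1 := by
      refine natDegree_mul_le.trans ?_
      rw [natDegree_X]
      have := pol_deg x.2
      omega
    rw [← h1, ha] at h2
    omega
  obtain ⟨R, hR, hRW⟩ := big_of_nhds hW
  have hfin : {s : ℂ | (pol x.2 * (pol x.1 - X * pol x.2)).eval s = 0}.Finite := by
    have h1 : {s : ℂ | (pol x.2 * (pol x.1 - X * pol x.2)).eval s = 0} =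
        {s : ℂ | (pol x.2 * (pol x.1 - X * pol x.2)).IsRoot s} := rfl
    rw [h1]
    exact Polynomial.finite_setOfPred_isRoot (mul_ne_zero hQ0 hR0)
  have hinf : (Set.range fun n : ℕ => (((n : ℝ) + R : ℝ) : ℂ)).Infinite := by
    refine Set.infinite_range_of_injective fun m n hmn => ?_
    have h1 := Complex.ofReal_injective hmn
    exact_mod_cast add_right_cancel h1
  obtain ⟨_, ⟨n, rfl⟩, hs⟩ := (hinf.sdiff hfin).nonempty
  obtain ⟨s, hsd⟩ : ∃ s : ℂ, s = (((n : ℝ) + R : ℝ) : ℂ) := ⟨_, rfl⟩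
  have hn0 : (0 : ℝ) ≤ n := Nat.cast_nonneg n
  have hs' : (pol x.2 * (pol x.1 - X * pol x.2)).eval s ≠ 0 := by
    rw [hsd]
    exact hs
  rw [eval_mul, eval_sub, eval_mul, eval_X] at hs'
  have hs2 := left_ne_zero_of_mul hs'
  have hs1 := right_ne_zero_of_mul hs'
  refine ⟨s, ⟨tr_cop hcop, tr_dega hk hkd hdeg, by rw [tr_degb, hg.hb], ?_, ?_⟩, hRW _ ?_, hRW _ ?_⟩
  · rw [pol_tr1, eval_sub, eval_mul, eval_C, eval_comp, eval_comp, eval_add, eval_X, eval_C, zero_add]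
    exact hs1
  · rw [pol_tr2, eval_comp, eval_add, eval_X, eval_C, zero_add]
    exact hs2
  · rw [hsd, Complex.norm_real, Real.norm_eq_abs]
    have := le_abs_self ((n : ℝ) + R)
    linarith
  · have e : s + 1 = (((n : ℝ) + R + 1 : ℝ) : ℂ) := by
      rw [hsd]
      push_cast
      ring
    rw [e, Complex.norm_real, Real.norm_eq_abs]
    have := le_abs_self ((n : ℝ) + R + 1)
    linarith

/-- THEOREM P+ for the generic maps of the family -/
theorem pp_disG (hd : 2 ≤ d) (hk : 2 ≤ k) (hkd : k ≤ d) {x : Em d k} (hg : GenM d k (pol x.1) (pol x.2))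
    (hup : ¬ UpF d k x) {f : OnePoint ℂ → OnePoint ℂ} (hfx : f = Rf (ex d k x))
    (hFA : ∀ z, z ∈ FS f ↔ Att f z) {c : OnePoint ℂ} (hc : IsCrit f c) (hcJ : c ∈ JS f)
    {P1 P2 : Set (OnePoint ℂ)} (h1 : IsClosed P1) (h2 : IsClosed P2)
    (hU : P1 ∪ P2 = PC f ∪ {c}) (hdis : Disjoint P1 P2) (hcP : c ∈ P1)
    (hv : ∀ n : ℕ, 1 ≤ n → f^[n] c ∈ P2) : False := by
  have hcop := ex_cop hg.cop
  have hdeg := ex_deg (genM_deg hg)
  obtain ⟨hi1, hi2, hi3⟩ := inf_sink (fam_ex hk hkd hg) one_pos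
  obtain ⟨A, hA, hz⟩ := Pool.Agent.H84.BR.trap_of_sink hcop (by rw [hdeg]; exact hd) hi2
  have hA' : Pool.Agent.H84.BR.Trap f A := by
    rw [hfx]
    exact hA
  have hf : Continuous f := by
    rw [hfx]
    exact rat_continuous hcop
  obtain ⟨s, hgs, hsA, hsA1⟩ := big_tr hk hkd hg (isOpen_interior.mem_nhds hz)
  obtain ⟨φ, hφ0, hφi, K, hK⟩ := tr_homeo s
  have hφx := tr_conj hd hg.cop (genM_deg hg) hφ0 hk hkd
  obtain ⟨v, hvd⟩ : ∃ v, v = ex d k (Tr d k s x) := ⟨_, rfl⟩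
  have hφ : ∀ y, Rf v (φ y) = φ (f y) := by
    intro y
    rw [hvd, hfx]
    exact hφx y
  have hup1 : ¬ UpF d k (Tr d k s x) := fun h => hup (tr_up hd hk hkd s hg.cop (genM_deg hg) h)
  have hAF : A ⊆ FS f := fun x hx => (hFA x).2 (hA'.att x hx)
  have hcop1 : IsCoprime (pol v.1) (pol v.2) := by
    rw [hvd]
    exact ex_cop hgs.cop
  have hdeg1 : max (pol v.1).natDegree (pol v.2).natDegree = d := by
    rw [hvd]
    exact ex_deg (genM_deg hgs)
  have hφn : ∀ (n : ℕ) (x : OnePoint ℂ), (Rf v)^[n] (φ x) = φ (f^[n] x) := fun n x =>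
    iter_conj φ hφ n x
  have hFS : ∀ x, φ x ∈ FS (Rf v) ↔ x ∈ FS f := fun x => Pool.Agent.H76.SU.fs_conj hK hφ x
  have hFA1 : ∀ z, z ∈ FS (Rf v) ↔ Att (Rf v) z := by
    intro z
    obtain ⟨z, rfl⟩ := φ.surjective z
    rw [hFS, att_conj φ hφ]
    exact hFA z
  have e0 : φ (s : OnePoint ℂ) = ((0 : ℂ) : OnePoint ℂ) := by
    rw [hφ0, sub_self]
  have e1 : φ ((s + 1 : ℂ) : OnePoint ℂ) = ((1 : ℂ) : OnePoint ℂ) := by
    rw [hφ0, add_sub_cancel_left]
  have hci : c ≠ OnePoint.infty := by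
    rintro rfl
    exact hcJ (hAF (interior_subset hz))
  -- the critical point
  obtain ⟨cc, hcc⟩ : ∃ cc : ℂ, (cc : OnePoint ℂ) = φ c := by
    apply OnePoint.ne_infty_iff_exists.1
    intro h
    rw [← hφi] at h
    exact hci (φ.injective h)
  -- the closed set
  obtain ⟨B, hB⟩ : ∃ B, B = PC f ∪ A := ⟨_, rfl⟩
  have hBc : IsClosed B := by
    rw [hB]
    exact (pc_closed _).union hA'.closed
  have hBf : ∀ x ∈ B, f x ∈ B := by
    intro x hx
    rw [hB] at hx ⊢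
    rcases hx with hx | hx
    · exact Or.inl (pc_inv hf hx)
    · exact Or.inr (interior_subset (hA'.maps x hx))
  have hPB : PC f ⊆ B := by
    rw [hB]
    exact subset_union_left
  have hAB : A ⊆ B := by
    rw [hB]
    exact subset_union_right
  have hsys : Sys0 (pol v.1) (pol v.2) (φ '' B) := by
    refine ⟨hcop1, by rw [hdeg1]; omega, φ.isClosed_image.2 hBc, ?_, ?_, ?_, ?_⟩
    · rintro _ ⟨x, hx, rfl⟩
      exact ⟨f x, hBf x hx, (hφ x).symm⟩
    · intro y hy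
      obtain ⟨y, rfl⟩ := φ.surjective y
      have h1 : IsCrit f y := (isCrit_conj φ hφ y).1 hy
      exact ⟨f y, hPB (pc_orb h1 (n := 1) le_rfl), (hφ y).symm⟩
    · exact ⟨OnePoint.infty, hAB (interior_subset hz), hφi⟩
    · exact ⟨0, _, hAB (interior_subset hsA), e0⟩
  -- the part of `P1` in the Julia set
  have hD : B \ (P1 ∩ JS f) = A ∪ (PC f ∩ FS f) ∪ (PC f ∩ P2) := by
    ext x
    constructor
    · rintro ⟨hx1, hx2⟩
      rw [hB] at hx1
      rcases hx1 with hx1 | hx1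
      · by_cases hxF : x ∈ FS f
        · exact Or.inl (Or.inr ⟨hx1, hxF⟩)
        · right
          refine ⟨hx1, ?_⟩
          have h3 : x ∈ P1 ∪ P2 := by
            rw [hU]
            exact Or.inl hx1
          rcases h3 with h3 | h3
          · exact absurd ⟨h3, hxF⟩ hx2
          · exact h3
      · exact Or.inl (Or.inl hx1)
    · rintro ((hx | ⟨hx1, hx2⟩) | ⟨hx1, hx2⟩)
      · exact ⟨hAB hx, fun h => h.2 (hAF hx)⟩
      · exact ⟨hPB hx1, fun h => h.2 hx2⟩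
      · exact ⟨hPB hx1, fun h => Set.disjoint_left.1 hdis h.1 hx2⟩
  have hpcf : IsClosed (PC f ∩ FS f) := by
    rw [hfx]
    rw [hfx] at hFA
    exact pcf_closedG hd hcop hdeg hFA
  refine dis_coreF hd hk hkd hgs hup1 hvd hFA1 hsys ⟨_, hAB (interior_subset hsA), e0⟩
    ⟨_, hAB (interior_subset hsA1), e1⟩ ?_ ?_ ?_ (c := cc) ?_ ?_ (P1 := φ '' (P1 ∩ JS f)) ?_ ?_ ?_ ?_ ?_
  · rw [← e0, hFS]
    exact hAF (interior_subset hsA)
  · rw [← e1, hFS]
    exact hAF (interior_subset hsA1)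
  · refine Filter.mem_of_superset (φ.isOpenMap _ isOpen_interior |>.mem_nhds (s := φ '' interior A) ⟨_, hz, hφi⟩) ?_
    exact Set.image_mono (interior_subset.trans hAB)
  · rw [hcc]
    exact (isCrit_conj φ hφ c).2 hc
  · rw [hcc]
    intro h
    exact hcJ ((hFS c).1 h)
  · exact φ.isClosed_image.2 (h1.inter (Pool.Agent.H47.RJ.js_closed _))
  · rintro _ ⟨x, hx, rfl⟩ h
    exact hx.2 ((hFS x).1 h)
  · rw [hcc]
    exact ⟨c, ⟨hcP, hcJ⟩, rfl⟩
  · rw [← Set.image_sdiff φ.injective, hD]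
    refine φ.isClosed_image.2 ?_
    exact (hA'.closed.union hpcf).union ((pc_closed _).inter h2)
  · rintro n hn ⟨x, hx, hxn⟩
    rw [hcc, hφn] at hxn
    rw [φ.injective hxn] at hx
    exact Set.disjoint_left.1 hdis hx.1 (hv n hn)

/-- THEOREM P+ for all the maps of the families -/
theorem pp_disF (hd : 2 ≤ d) (hk : 2 ≤ k) (hkd : k ≤ d) {x : Em d k} (hcop : IsCoprime (pol x.1) (pol x.2))
    (hdeg : max (pol x.1).natDegree (pol x.2).natDegree = d) (hup : ¬ UpF d k x)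
    (hFA : ∀ z, z ∈ FS (Rf (ex d k x)) ↔ Att (Rf (ex d k x)) z) {c : OnePoint ℂ}
    (hc : IsCrit (Rf (ex d k x)) c) (hcJ : c ∈ JS (Rf (ex d k x)))
    {P1 P2 : Set (OnePoint ℂ)} (h1 : IsClosed P1) (h2 : IsClosed P2)
    (hU : P1 ∪ P2 = PC (Rf (ex d k x)) ∪ {c}) (hdis : Disjoint P1 P2) (hcP : c ∈ P1)
    (hv : ∀ n : ℕ, 1 ≤ n → (Rf (ex d k x))^[n] c ∈ P2) : False := by
  obtain ⟨l, z, φ, K, hl2, hld, hg, hK, hφ, hupz⟩ := red_gen hd hk hkd hcop hdeg
  obtain ⟨f, hf⟩ : ∃ f, f = Rf (ex d k x) := ⟨_, rfl⟩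
  rw [← hf] at hFA hc hcJ hU hv hφ
  have hup1 : ¬ UpF d l z := fun h => hup (hupz h)
  have hFS : ∀ y, φ y ∈ FS (Rf (ex d l z)) ↔ y ∈ FS f := fun y => Pool.Agent.H76.SU.fs_conj hK hφ y
  have hPC : PC (Rf (ex d l z)) = φ '' PC f := by
    ext y
    obtain ⟨y, rfl⟩ := φ.surjective y
    constructor
    · intro h
      exact ⟨y, pc_conj φ hφ h, rfl⟩
    · rintro ⟨y', hy', he⟩
      rw [φ.injective he] at hy'
      have hφ' : ∀ y, f (φ.symm y) = φ.symm (Rf (ex d l z) y) := by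
        intro y
        rw [Homeomorph.eq_symm_apply, ← hφ, Homeomorph.apply_symm_apply]
      refine pc_conj φ.symm hφ' ?_
      rw [Homeomorph.symm_apply_apply]
      exact hy'
  refine pp_disG hd hl2 hld hg hup1 rfl (c := φ c) (P1 := φ '' P1) (P2 := φ '' P2) ?_ ?_ ?_ (φ.isClosed_image.2 h1)
    (φ.isClosed_image.2 h2) ?_ ?_ ⟨c, hcP, rfl⟩ ?_
  · intro y
    obtain ⟨y, rfl⟩ := φ.surjective y
    rw [hFS, att_conj φ hφ]
    exact hFA y
  · exact (isCrit_conj φ hφ c).2 hc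
  · intro h
    exact hcJ ((hFS c).1 h)
  · rw [← image_union, hU, image_union, image_singleton, hPC]
  · exact (disjoint_image_iff φ.injective).2 hdis
  · intro n hn
    rw [iter_conj φ hφ]
    exact ⟨_, hv n hn, rfl⟩

/-- the Fatou set is the union of the basins -/
theorem fa_iffF (hd : 2 ≤ d) (hfat : ∀ k : ℕ, 2 ≤ k → k ≤ d → volume {x : Em d k | IsCoprime (pol x.1) (pol x.2) ∧
      max (pol x.1).natDegree (pol x.2).natDegree = d ∧
      FS (Rf (ex d k x)) ≠ {z | Att (Rf (ex d k x)) z}} = 0) (hk : 2 ≤ k) (hkd : k ≤ d)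
    {x : Em d k} (hcop : IsCoprime (pol x.1) (pol x.2))
    (hdeg : max (pol x.1).natDegree (pol x.2).natDegree = d) (hup : ¬ UpF d k x) (w : OnePoint ℂ) :
    w ∈ FS (Rf (ex d k x)) ↔ Att (Rf (ex d k x)) w := by
  refine ⟨fun h => fs_attF hd hfat hk hkd hcop hdeg hup h, fun h => ?_⟩
  obtain ⟨l, z, φ, K, hl2, hld, hg, hK, hφ, hupz⟩ := red_gen hd hk hkd hcop hdeg
  have hup1 : ¬ UpF d l z := fun h => hup (hupz h)
  have hAR := ar_m hl2 hld hg (velF hd hl2 hld hg hup1).1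
  have h1 := (att_conj φ hφ w).2 h
  exact (Pool.Agent.H76.SU.fs_conj hK hφ w).1
    (att_fs_ar (by omega) (ex_cop hg.cop) (ex_deg (genM_deg hg)) hAR h1)

/-- the form with the closure of the orbits of the critical points in the Julia set -/
theorem pphF (hd : 2 ≤ d) (hfat : ∀ k : ℕ, 2 ≤ k → k ≤ d → volume {x : Em d k | IsCoprime (pol x.1) (pol x.2) ∧
      max (pol x.1).natDegree (pol x.2).natDegree = d ∧
      FS (Rf (ex d k x)) ≠ {z | Att (Rf (ex d k x)) z}} = 0) (hk : 2 ≤ k) (hkd : k ≤ d)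
    {x : Em d k} (hcop : IsCoprime (pol x.1) (pol x.2))
    (hdeg : max (pol x.1).natDegree (pol x.2).natDegree = d) (hup : ¬ UpF d k x) {c : OnePoint ℂ}
    (hc : IsCrit (Rf (ex d k x)) c) (hcJ : c ∈ JS (Rf (ex d k x))) :
    (connectedComponentIn (Pool.Agent.H64.JS.KJ {c | IsCrit (Rf (ex d k x)) c} (JS (Rf (ex d k x)))
      (Rf (ex d k x))) c ∩ Pool.Agent.H64.JS.OC (Rf (ex d k x)) c).Nonempty := by
  have hFA := fa_iffF hd hfat hk hkd hcop hdeg hup
  have hP : c ∈ PC (Rf (ex d k x)) := by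
    by_contra hP
    exact hup (P1F_all hd hk hkd hcop hdeg hc hcJ hP)
  have hcop1 := ex_cop hcop
  have hdeg1 := ex_deg hdeg
  obtain ⟨v, hv⟩ : ∃ v, v = ex d k x := ⟨_, rfl⟩
  rw [← hv] at hc hcJ hFA hP hcop1 hdeg1 ⊢
  have hinv : ∀ (n : ℕ) (x : OnePoint ℂ), x ∈ JS (Rf v) → (Rf v)^[n] x ∈ JS (Rf v) :=
    fun n x hx h => hx ((Pool.Agent.H47.RJ.fs_iff (by omega) hcop1 hdeg1 n x).1 h)
  obtain ⟨K, hK⟩ : ∃ K, K = Pool.Agent.H64.JS.KJ {c | IsCrit (Rf v) c} (JS (Rf v)) (Rf v) :=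
    ⟨_, rfl⟩
  have hKc : IsClosed K := by
    rw [hK]
    exact isClosed_closure
  have hKJ : K ⊆ JS (Rf v) := by
    rw [hK]
    exact Pool.Agent.H64.JS.kj_sub (Pool.Agent.H47.RJ.js_closed _) (hinv 1)
  have hKP : K ⊆ PC (Rf v) := by
    rw [hK]
    unfold PC
    refine closure_mono ?_
    rintro y ⟨c, hc, -, n, hn, rfl⟩
    exact ⟨c, hc, n, hn, rfl⟩
  have hFc := pcf_closedG hd hcop1 hdeg1 hFA
  have hPK : PC (Rf v) ⊆ K ∪ (PC (Rf v) ∩ FS (Rf v)) := by
    conv_lhs => unfold PC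
    refine closure_minimal ?_ (hKc.union hFc)
    rintro y ⟨c, hc, n, hn, rfl⟩
    by_cases h : c ∈ FS (Rf v)
    · right
      exact ⟨pc_orb hc hn, (Pool.Agent.H47.RJ.fs_iff (by omega) hcop1 hdeg1 n c).2 h⟩
    · left
      rw [hK]
      exact subset_closure ⟨c, hc, h, n, hn, rfl⟩
  have hcK : c ∈ K := by
    rcases hPK hP with h | h
    · exact h
    · exact absurd h.2 hcJ
  rw [← hK]
  by_contra hne
  rw [not_nonempty_iff_eq_empty, ← disjoint_iff_inter_eq_empty] at hne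
  obtain ⟨P1, P2, h1, h2, h12, hun, hc1, hO⟩ := Pool.Agent.H42.PR.split_of_comp hKc.isCompact
    isClosed_closure hcK hne
  rw [hv] at hc hcJ hFA
  refine pp_disF hd hk hkd hcop hdeg hup hFA hc hcJ h1 (h2.union hFc) ?_ ?_ hc1 fun n hn =>
    Or.inl ?_
  · rw [← hv, ← union_assoc, hun]
    refine subset_antisymm ?_ ?_
    · rintro x (hx | hx)
      · exact Or.inl (hKP hx)
      · exact Or.inl hx.1
    · rintro x (hx | hx)
      · exact hPK hx
      · rw [mem_singleton_iff.1 hx]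
        exact Or.inl hcK
  · rw [disjoint_union_right]
    refine ⟨h12, ?_⟩
    rw [Set.disjoint_left]
    intro x hx1 hx2
    exact hKJ (hun ▸ Or.inl hx1) hx2.2
  · rw [← hv] at hc hcJ ⊢
    refine hO ⟨?_, ?_⟩
    · rw [hK]
      exact subset_closure ⟨c, hc, hcJ, n, hn, rfl⟩
    · exact subset_closure ⟨n, hn, rfl⟩

end Pool.Agent.H57.PF
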