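import Pool.Agent.H57.PF.DPF
import Pool.Agent.H47.NM.INF

/-!
# THEOREM P+ in the families: the cohomological equation (X)

As `xi_pp` (H31/PP/XiP) with `A = ∅`; the points near infinity are in `SS T`; the function `Ξ` has linear growth, so the degree of `η` is `≤ 2 d - k`.
-/

set_option autoImplicit false

open Filter Topology Polynomial OnePoint Metric Set MeasureTheory

namespace Pool.Agent.H57.PF

open Pool.Agent.H44.Fatou Pool.Agent.H32.BT Pool.Agent.H80.AJ Pool.Agent.H35.EX Pool.Agent.H61.TT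
open Pool.Agent.H79.Eul Pool.Agent.H79.Par Pool.Agent.H47.NN Pool.Agent.H71.Top
open Pool.Agent.H42.PP Pool.Agent.H31.PP
open Pool.Agent.H1.PU (rho IX br Nice Av EE RR R1 g1 LAM KA EA)
open Pool.Agent.H79.GP (Dm Fam)
open Pool.Agent.H47.NM (inf_sink)

variable {d k : ℕ} {v : E d} {PA : Set (OnePoint ℂ)} {c : ℂ} {T : Set ℂ} {χ : ℂ → ℂ}

private theorem xp_time {z : ℂ} (hz : z ∈ SS (pol v.1) (pol v.2) T) : z ∉ T :=
  fun hT => hz 0 z hT rfl

private theorem xp_dc (h : PDF k v PA c T χ) : IsCompact (tsupport (dbar1 χ)) := by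
  have h1 : HasCompactSupport (dbar1 χ) := by
    refine HasCompactSupport.of_support_subset_isCompact h.cut.cs ?_
    intro y hy
    by_contra hcon
    apply hy
    have h2 : fderiv ℝ χ y = 0 := by
      by_contra h3
      exact hcon (tsupport_fderiv_subset ℝ (subset_tsupport _ h3))
    unfold dbar1
    rw [h2]
    simp
  exact h1

private theorem xp_fn {x : ℂ} {r : ℝ} {K : Set ℂ} (m : ℕ) (h : PDF k v PA c T χ)
    (hK : MeasurableSet K) (hKr : K ⊆ ball x r) : ∃ C : ℝ, Fn1 x r (PhiF χ c m K) C := by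
  obtain ⟨C, hC, hb⟩ := phi_bd (k := m) h.cut.sm h.cut.cs h.cut.one hK hKr
  exact ⟨C, hC, fun F G M N hF hG => phi_add h.cut.sm h.cut.cs h.cut.one hK hKr hF hG,
    fun z F M hF => phi_smul h.cut.sm h.cut.cs h.cut.one hK hKr z hF, hb,
    fun F G hFG => phi_congr hK hKr hFG⟩

private theorem xp_diff {x : ℂ} {r C₀ : ℝ} {Λ : (ℂ → ℂ) → ℂ} (h : Fn1 x r Λ C₀) {F G : ℂ → ℂ}
    {M1 M2 e : ℝ} (he : 0 ≤ e) (hF : Pool.H50.ST.Bd x r M1 F) (hG : Pool.H50.ST.Bd x r M2 G)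
    (hd : ∀ y ∈ ball x r, ‖F y - G y‖ ≤ e) : ‖Λ F - Λ G‖ ≤ C₀ * e := by
  have h7 : Λ (fun w => F w + (-1) * G w) = Λ F + (-1) * Λ G := by
    rw [h.add _ _ _ _ hF (Pool.H50.ST.bd_mul (-1) hG), h.smul _ _ _ hG]
  have h8 : ‖Λ (fun w => F w + (-1) * G w)‖ ≤ C₀ * e := by
    refine h.bd _ _ he ⟨(Pool.H50.ST.bd_add hF (Pool.H50.ST.bd_mul (-1) hG)).1, ?_⟩
    intro w hw
    have e1 : F w + (-1) * G w = F w - G w := by ring
    show ‖F w + (-1) * G w‖ ≤ _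
    rw [e1]
    exact hd w hw
  have h9 : Λ F - Λ G = Λ F + (-1) * Λ G := by ring
  rw [h9, ← h7]
  exact h8

/-- a finite disjoint cover -/
private theorem xp_cover {Z : Set ℂ} (hZ : IsCompact Z) {s : ℂ → ℝ} (hs : ∀ x ∈ Z, 0 < s x) :
    ∃ (n : ℕ) (x : Fin n → ℂ) (L : Fin n → Set ℂ), (∀ j, x j ∈ Z) ∧ (∀ j, MeasurableSet (L j)) ∧
      (∀ j, L j ⊆ ball (x j) (s (x j))) ∧ Pairwise (Function.onFun Disjoint L) ∧ Z ⊆ ⋃ j, L j := by
  obtain ⟨t, ht, hcov⟩ := hZ.elim_nhds_subcover (fun x => ball x (s x))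
    (fun x hx => ball_mem_nhds x (hs x hx))
  obtain ⟨e⟩ : Nonempty (Fin t.card ≃ t) := ⟨t.equivFin.symm⟩
  refine ⟨t.card, fun j => (e j : ℂ), disjointed fun j => ball (e j : ℂ) (s (e j : ℂ)),
    fun j => ht _ (e j).2, fun j => ?_, fun j => disjointed_subset _ j, disjoint_disjointed _, ?_⟩
  · exact disjointedRec (p := fun S : Set ℂ => MeasurableSet S)
      (fun S i hS => hS.diff measurableSet_ball) measurableSet_ball
  · rw [iUnion_disjointed]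
    intro y hy
    obtain ⟨z, hz, hyz⟩ := mem_iUnion₂.1 (hcov hy)
    refine mem_iUnion.2 ⟨e.symm ⟨z, hz⟩, ?_⟩
    rw [Equiv.apply_symm_apply]
    exact hyz

/-- the denominator does not vanish near infinity, and points near infinity are mapped near infinity -/
theorem inf_near (hF : Fam d k v) (R0 : ℝ) :
    ∃ R : ℝ, 1 ≤ R ∧ R0 ≤ R ∧ ∀ z : ℂ, R ≤ ‖z‖ → (pol v.2).eval z ≠ 0 ∧ R0 ≤ ‖gg (pol v.1) (pol v.2) z‖ := by
  have hk := hF.hm
  have hkd := hF.hmd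
  have hcop := hF.cop
  have hQ0 : pol v.2 ≠ 0 := by
    refine den_ne_zero hcop ?_
    rw [hF.ha]
    have := le_max_left d (pol v.2).natDegree
    omega
  obtain ⟨h1, -, -⟩ := inf_sink hF one_pos
  have hf : Continuous (Rf v) := rat_continuous hcop
  have h2 : ((↑) '' closedBall (0 : ℂ) R0 : Set (OnePoint ℂ))ᶜ ∈ 𝓝 (∞ : OnePoint ℂ) := by
    have h3 : IsOpen ((↑) '' closedBall (0 : ℂ) R0 : Set (OnePoint ℂ))ᶜ :=
      OnePoint.isOpen_compl_image_coe.2 ⟨isClosed_closedBall, isCompact_closedBall _ _⟩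
    refine h3.mem_nhds ?_
    rintro ⟨z, -, hz⟩
    exact OnePoint.coe_ne_infty z hz
  have h3 : Rf v ⁻¹' ((↑) '' closedBall (0 : ℂ) R0 : Set (OnePoint ℂ))ᶜ ∈ 𝓝 (∞ : OnePoint ℂ) := by
    apply hf.continuousAt
    have h3 : Rf v OnePoint.infty = OnePoint.infty := h1
    rw [h3]
    exact h2
  have h4 : Tendsto (fun z : ℂ => (z : OnePoint ℂ)) (Filter.cocompact ℂ) (𝓝 OnePoint.infty) := by
    rw [← Filter.coclosedCompact_eq_cocompact]
    exact OnePoint.tendsto_coe_infty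
  have hfin : {z : ℂ | (pol v.2).eval z = 0}.Finite := by
    have h1 : {z : ℂ | (pol v.2).eval z = 0} = {z : ℂ | (pol v.2).IsRoot z} := rfl
    rw [h1]
    exact Polynomial.finite_setOfPred_isRoot hQ0
  have h5 : ∀ᶠ z : ℂ in Filter.cocompact ℂ, (z : OnePoint ℂ) ∈ Rf v ⁻¹' ((↑) '' closedBall (0 : ℂ) R0 : Set (OnePoint ℂ))ᶜ ∧
      (pol v.2).eval z ≠ 0 := (h4.eventually h3).and hfin.isCompact.compl_mem_cocompact
  rw [← Metric.cobounded_eq_cocompact,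
    (Metric.hasBasis_cobounded_compl_closedBall (0 : ℂ)).eventually_iff] at h5
  obtain ⟨R1, -, hR1⟩ := h5
  refine ⟨max (max 1 R0) (R1 + 1), (le_max_left _ _).trans (le_max_left _ _), (le_max_right _ _).trans (le_max_left _ _),
    fun z hz => ?_⟩
  have h6 : z ∈ (closedBall (0 : ℂ) R1)ᶜ := by
    intro h6
    rw [mem_closedBall_zero_iff] at h6
    have := (le_max_right (max 1 R0) (R1 + 1)).trans hz
    linarith
  obtain ⟨h7, h8⟩ := hR1 h6
  refine ⟨h8, ?_⟩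
  by_contra hcon
  apply h7
  refine ⟨gg (pol v.1) (pol v.2) z, ?_, ?_⟩
  · rw [mem_closedBall_zero_iff]
    exact (not_le.1 hcon).le
  · exact (rat_coe_of_ne h8).symm

/-- a polynomial of degree at most `n` is bounded by `C ‖z‖ ^ n` off the unit disc -/
theorem pol_le (p : Polynomial ℂ) {n : ℕ} (hn : p.natDegree ≤ n) :
    ∃ C : ℝ, 0 ≤ C ∧ ∀ z : ℂ, 1 ≤ ‖z‖ → ‖p.eval z‖ ≤ C * ‖z‖ ^ n := by
  refine ⟨∑ i ∈ Finset.range (n + 1), ‖p.coeff i‖, Finset.sum_nonneg fun i _ => norm_nonneg _, fun z hz => ?_⟩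
  rw [eval_eq_sum_range' (Nat.lt_succ_of_le hn), Finset.sum_mul]
  refine (norm_sum_le _ _).trans (Finset.sum_le_sum fun i hi => ?_)
  rw [norm_mul, norm_pow]
  exact mul_le_mul_of_nonneg_left (pow_le_pow_right₀ hz (Nat.lt_succ_iff.1 (Finset.mem_range.1 hi))) (norm_nonneg _)

/-- the degree of the right-hand side -/
theorem deg_gr (h : PDF k v PA c T χ) {Ξ : ℂ → ℂ} {η : Polynomial ℂ}
    (hX : ∀ a ∈ SS (pol v.1) (pol v.2) T, (pol v.2).eval a ≠ 0 →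
        Ξ (gg (pol v.1) (pol v.2) a) = Pool.Agent.H61.TT.dg (pol v.1) (pol v.2) a * Ξ a +
          η.eval a / (pol v.2).eval a ^ 2) {C R0 : ℝ} (hC : 0 ≤ C)
    (hg : ∀ z : ℂ, R0 ≤ ‖z‖ → ‖Ξ z‖ ≤ C * (1 + ‖z‖)) : η.natDegree ≤ 2 * d - k := by
  have hF := h.fam
  have hk := hF.hm
  have hkd := hF.hmd
  obtain ⟨R1, hR1, hbig⟩ := h.big
  obtain ⟨R2, hR2, hR2', hinf⟩ := inf_near hF (max R0 R1)
  obtain ⟨C1, hC1, h1⟩ := pol_le (pol v.1) (n := d) (by rw [hF.ha])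
  obtain ⟨C2, hC2, h2⟩ := pol_le (pol v.2) (n := d - k) (by rw [hF.hb])
  have hwd : (ww (pol v.1) (pol v.2)).natDegree ≤ 2 * d - k - 1 := by
    have ha' := natDegree_derivative_le (pol v.1)
    have hb' := natDegree_derivative_le (pol v.2)
    rw [hF.ha] at ha'
    rw [hF.hb] at hb'
    by_cases hdk : d = k
    · have hc : (pol v.2).natDegree = 0 := by rw [hF.hb]; omega
      have e : ww (pol v.1) (pol v.2) = derivative (pol v.1) * pol v.2 := by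
        unfold ww
        rw [eq_C_of_natDegree_eq_zero hc, derivative_C, mul_zero, sub_zero]
      rw [e]
      refine natDegree_mul_le.trans ?_
      rw [hc]
      omega
    · unfold ww
      refine (natDegree_sub_le _ _).trans (max_le ?_ ?_)
      · refine natDegree_mul_le.trans ?_
        rw [hF.hb]
        omega
      · refine natDegree_mul_le.trans ?_
        rw [hF.ha]
        omega
  obtain ⟨C3, hC3, h3⟩ := pol_le (ww (pol v.1) (pol v.2)) hwd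
  refine deg_of_gr (C := C * (C2 * C2 + C1 * C2 + 2 * C3)) (R := R2) fun z hz => ?_
  obtain ⟨hq, hgg⟩ := hinf z hz
  have hz1 : 1 ≤ ‖z‖ := hR2.trans hz
  have hzR1 : R1 ≤ ‖z‖ := (le_max_right R0 R1).trans (hR2'.trans hz)
  have hzR0 : R0 ≤ ‖z‖ := (le_max_left R0 R1).trans (hR2'.trans hz)
  have e1 := hX z (hbig z hzR1).2 hq
  have e2 : η.eval z = (pol v.2).eval z ^ 2 * Ξ (gg (pol v.1) (pol v.2) z) -
      (ww (pol v.1) (pol v.2)).eval z * Ξ z := by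
    rw [e1]
    unfold Pool.Agent.H61.TT.dg
    field_simp
    ring
  have b1 := hg z hzR0
  have b2 := hg _ ((le_max_left R0 R1).trans hgg)
  have hP := h1 z hz1
  have hQ := h2 z hz1
  have hW := h3 z hz1
  have hz0 : 0 < ‖z‖ := by linarith
  have e3 : ‖(pol v.2).eval z ^ 2‖ * ‖gg (pol v.1) (pol v.2) z‖ = ‖(pol v.1).eval z‖ * ‖(pol v.2).eval z‖ := by
    rw [← norm_mul, ← norm_mul]
    congr 1
    unfold gg
    field_simp
  have i1 : ‖(pol v.2).eval z ^ 2‖ ≤ C2 * C2 * ‖z‖ ^ (2 * d - k) := by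
    rw [norm_pow, pow_two]
    calc ‖(pol v.2).eval z‖ * ‖(pol v.2).eval z‖ ≤ (C2 * ‖z‖ ^ (d - k)) * (C2 * ‖z‖ ^ (d - k)) :=
          mul_le_mul hQ hQ (norm_nonneg _) (by positivity)
      _ = C2 * C2 * ‖z‖ ^ (d - k + (d - k)) := by rw [pow_add]; ring
      _ ≤ C2 * C2 * ‖z‖ ^ (2 * d - k) :=
          mul_le_mul_of_nonneg_left (pow_le_pow_right₀ hz1 (by omega)) (by positivity)
  have i2 : ‖(pol v.1).eval z‖ * ‖(pol v.2).eval z‖ ≤ C1 * C2 * ‖z‖ ^ (2 * d - k) := by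
    calc ‖(pol v.1).eval z‖ * ‖(pol v.2).eval z‖ ≤ (C1 * ‖z‖ ^ d) * (C2 * ‖z‖ ^ (d - k)) :=
          mul_le_mul hP hQ (norm_nonneg _) (by positivity)
      _ = C1 * C2 * ‖z‖ ^ (d + (d - k)) := by rw [pow_add]; ring
      _ = C1 * C2 * ‖z‖ ^ (2 * d - k) := by
          congr 2
          omega
  have i3 : ‖(ww (pol v.1) (pol v.2)).eval z‖ * (1 + ‖z‖) ≤ 2 * C3 * ‖z‖ ^ (2 * d - k) := by
    calc ‖(ww (pol v.1) (pol v.2)).eval z‖ * (1 + ‖z‖) ≤ (C3 * ‖z‖ ^ (2 * d - k - 1)) * (2 * ‖z‖) :=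
          mul_le_mul hW (by linarith) (by positivity) (by positivity)
      _ = 2 * C3 * ‖z‖ ^ (2 * d - k - 1 + 1) := by rw [pow_succ]; ring
      _ = 2 * C3 * ‖z‖ ^ (2 * d - k) := by
          congr 2
          omega
  rw [e2]
  refine (norm_sub_le _ _).trans ?_
  rw [norm_mul, norm_mul]
  calc ‖(pol v.2).eval z ^ 2‖ * ‖Ξ (gg (pol v.1) (pol v.2) z)‖ + ‖(ww (pol v.1) (pol v.2)).eval z‖ * ‖Ξ z‖
      ≤ ‖(pol v.2).eval z ^ 2‖ * (C * (1 + ‖gg (pol v.1) (pol v.2) z‖)) +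
        ‖(ww (pol v.1) (pol v.2)).eval z‖ * (C * (1 + ‖z‖)) :=
        add_le_add (mul_le_mul_of_nonneg_left b2 (norm_nonneg _)) (mul_le_mul_of_nonneg_left b1 (norm_nonneg _))
    _ = C * (‖(pol v.2).eval z ^ 2‖ + ‖(pol v.2).eval z ^ 2‖ * ‖gg (pol v.1) (pol v.2) z‖ +
        ‖(ww (pol v.1) (pol v.2)).eval z‖ * (1 + ‖z‖)) := by ring
    _ ≤ C * (C2 * C2 * ‖z‖ ^ (2 * d - k) + C1 * C2 * ‖z‖ ^ (2 * d - k) + 2 * C3 * ‖z‖ ^ (2 * d - k)) := by
        rw [e3]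
        exact mul_le_mul_of_nonneg_left (add_le_add (add_le_add i1 i2) i3) hC
    _ = C * (C2 * C2 + C1 * C2 + 2 * C3) * ‖z‖ ^ (2 * d - k) := by ring

/-- the equation of the resolvent for one disc -/
theorem ea_idnF (h : PDF k v PA c T χ) {x : ℂ} {s : ℝ} (hD : Dsc d (pol v.1) (pol v.2) PA ∅ ∅ T c x s)
    (hinf : {z : ℂ | z ∈ SS (pol v.1) (pol v.2) T ∧ (pol v.2).eval z ≠ 0}.Infinite) {y : ℂ} (hy : y ∈ ball x (6 * s)) :
    ∃ N : Polynomial ℂ, N.natDegree ≤ 2 * d ∧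
      (∀ z ∈ SS (pol v.1) (pol v.2) T, (pol v.2).eval z ≠ 0 →
        Pool.Agent.H61.TT.dg (pol v.1) (pol v.2) z * (EA (pol v.1) (pol v.2) x s ∅ z y - KA z y) =
          EA (pol v.1) (pol v.2) x s ∅ (gg (pol v.1) (pol v.2) z) y + N.eval z / (pol v.2).eval z ^ 2) ∧
      0 = EA (pol v.1) (pol v.2) x s ∅ (gg (pol v.1) (pol v.2) c) y + N.eval c / (pol v.2).eval c ^ 2 := by
  have h0 := hD.b.s0
  have hcl : c ∈ LAM (pol v.1) (pol v.2) x s := by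
    intro n u hu he
    cases n with
    | zero =>
      have h1 : c = u := by
        rw [Function.iterate_zero, id] at he
        exact OnePoint.coe_injective he
      exact hD.nc (h1 ▸ hu)
    | succ n =>
      rw [Function.iterate_succ_apply, rat_coe_of_ne h.qc] at he
      have h1 : (rat (pol v.1) (pol v.2))^[n] ((gg (pol v.1) (pol v.2) c : ℂ) : OnePoint ℂ) ∈ PA :=
        iter_mem hD.b.sys.inv h.vPA n
      have h2 : (rat (pol v.1) (pol v.2))^[n] ((gg (pol v.1) (pol v.2) c : ℂ) : OnePoint ℂ) = (u : OnePoint ℂ) := he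
      rw [h2] at h1
      exact hD.b.off u (ball_subset_ball (by have := Pool.Agent.H1.PU.rho_ge h0; linarith) hu) h1
  obtain ⟨S', hS'⟩ : ∃ S' : Set ℂ, S' = {z | z ∈ insert c (SS (pol v.1) (pol v.2) T) ∧ (pol v.2).eval z ≠ 0} :=
    ⟨_, rfl⟩
  have hSinf : S'.Infinite := by
    rw [hS']
    exact hinf.mono fun z hz => ⟨Or.inr hz.1, hz.2⟩
  have hS1 : ∀ z ∈ S', z ∈ LAM (pol v.1) (pol v.2) x s ∧ (pol v.2).eval z ≠ 0 ∧
      BK (pol v.1) (pol v.2) x s ∅ z := by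
    rw [hS']
    rintro z ⟨hz, hq⟩
    refine ⟨?_, hq, 0, fun p hp => absurd hp (by rw [r1_empty]; exact Set.notMem_empty p)⟩
    rcases hz with rfl | hz
    · exact hcl
    · exact ss_lam hD.sub hz
  obtain ⟨N, hN, hN'⟩ := idn hD.b hD.mj hS1 hSinf hy
  have hL : ∀ z, Pool.H50.ST.Lop (g1 (pol v.1) (pol v.2) x s ∅) (KA z) y = 0 := by
    intro z
    have he : IsEmpty (R1 (pol v.1) (pol v.2) x ∅) := by
      rw [r1_empty]
      infer_instance
    unfold Pool.H50.ST.Lop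
    exact tsum_empty
  have key : ∀ z ∈ S', Pool.Agent.H61.TT.dg (pol v.1) (pol v.2) z * (EA (pol v.1) (pol v.2) x s ∅ z y - KA z y) =
      EA (pol v.1) (pol v.2) x s ∅ (gg (pol v.1) (pol v.2) z) y + N.eval z / (pol v.2).eval z ^ 2 := by
    intro z hz
    have h1 := hN' z hz
    rwa [hL, add_zero] at h1
  refine ⟨N, hN, fun z hz hq => key z (by rw [hS']; exact ⟨Or.inr hz, hq⟩), ?_⟩
  have h1 := key c (by rw [hS']; exact ⟨Or.inl rfl, h.qc⟩)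
  have h2 : Pool.Agent.H61.TT.dg (pol v.1) (pol v.2) c = 0 := by
    unfold Pool.Agent.H61.TT.dg
    rw [h.w, zero_div]
  rw [h2, zero_mul] at h1
  exact h1

theorem xi_ppF (h : PDF k v PA c T χ) :
    ∃ (Ξ : ℂ → ℂ) (η : Polynomial ℂ) (κ : ℂ), κ ≠ 0 ∧ η.natDegree ≤ 2 * d - k ∧
      (∀ a ∈ SS (pol v.1) (pol v.2) T, (pol v.2).eval a ≠ 0 →
        Ξ (gg (pol v.1) (pol v.2) a) = Pool.Agent.H61.TT.dg (pol v.1) (pol v.2) a * Ξ a +
          η.eval a / (pol v.2).eval a ^ 2) ∧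
      η.eval c / (pol v.2).eval c ^ 2 = Ξ (gg (pol v.1) (pol v.2) c) + κ ∧
      ∀ ε : ℝ, 0 < ε → ∃ t : ℝ, 0 < t ∧ ∀ a ∈ SS (pol v.1) (pol v.2) T,
        ‖a - gg (pol v.1) (pol v.2) c‖ < t → ‖Ξ a - Ξ (gg (pol v.1) (pol v.2) c)‖ ≤ ε := by
  have hQ := h.qc
  choose! s hsD using h.cov
  obtain ⟨n, x, L, hx, hLm, hLb, hLd, hLc⟩ := xp_cover (xp_dc h) (s := s)
    (fun x hx => (hsD x hx).b.s0)
  have hcT : c ∈ T := by
    apply h.cut.sub
    apply subset_tsupport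
    have h1 : χ c = 1 := h.cut.one.self_of_nhds
    show χ c ≠ 0
    rw [h1]
    exact one_ne_zero
  have hc0 : c ≠ 0 := by
    rintro h0
    rw [h0] at hcT
    exact h.t0 hcT
  have hc1 : c ≠ 1 := by
    rintro h0
    rw [h0] at hcT
    exact h.t1 hcT
  obtain ⟨Rb, hRb, hbig⟩ := h.big
  have hinf : {z : ℂ | z ∈ SS (pol v.1) (pol v.2) T ∧ (pol v.2).eval z ≠ 0}.Infinite := by
    obtain ⟨R, hR1, hRR, hR⟩ := inf_near h.fam Rb
    refine Set.infinite_of_injective_forall_mem (f := fun n : ℕ => (((n : ℝ) + R : ℝ) : ℂ)) ?_ fun n => ?_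
    · intro m n hmn
      have h1 := Complex.ofReal_injective hmn
      exact_mod_cast add_right_cancel h1
    · have h1 : R ≤ ‖(((n : ℝ) + R : ℝ) : ℂ)‖ := by
        rw [Complex.norm_real, Real.norm_eq_abs]
        have := le_abs_self ((n : ℝ) + R)
        have h2 : (0 : ℝ) ≤ n := Nat.cast_nonneg n
        linarith
      exact ⟨(hbig _ (hRR.trans h1)).2, (hR _ h1).1⟩
  -- the multiplicity of the critical point
  obtain ⟨W, hW, hWd⟩ := Polynomial.exists_eq_pow_rootMultiplicity_mul_and_not_dvd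
    (ww (pol v.1) (pol v.2)) (ww_ne h.rd) c
  have hm : 0 < (ww (pol v.1) (pol v.2)).rootMultiplicity c :=
    (Polynomial.rootMultiplicity_pos (ww_ne h.rd)).2 h.w
  obtain ⟨m, hk⟩ := Nat.exists_eq_add_of_le' hm
  have hWc : W.eval c ≠ 0 := fun h0 => hWd (dvd_iff_isRoot.2 h0)
  rw [hk] at hW
  have hL6 : ∀ j, L j ⊆ ball (x j) (6 * s (x j)) := fun j =>
    (hLb j).trans (ball_subset_ball (by have := (hsD (x j) (hx j)).b.s0; linarith))
  choose C hF using fun j => xp_fn m h (hLm j) (hL6 j)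
  have hEA : ∀ j, ∀ z ∈ SS (pol v.1) (pol v.2) T, ∃ M, Pool.H50.ST.Bd (x j) (6 * s (x j)) M
      (EA (pol v.1) (pol v.2) (x j) (s (x j)) ∅ z) := by
    intro j z hz
    obtain ⟨C, -, hC⟩ := ea_bd (hsD (x j) (hx j)).b (hsD (x j) (hx j)).mj
    exact ⟨_, (hC z (ss_lam (hsD (x j) (hx j)).sub hz)).1⟩
  have hKA : ∀ j, ∀ z ∈ SS (pol v.1) (pol v.2) T, ∃ M, Pool.H50.ST.Bd (x j) (6 * s (x j)) M
      (KA z) := fun j z hz => Pool.Agent.H42.PB.ka_far (hsD (x j) (hx j)).b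
        (Pool.Agent.H42.PB.lam_far (ss_lam (hsD (x j) (hx j)).sub hz))
  have hgen := fun j => xi_gen (hF j) (d := d) (a := pol v.1) (b := pol v.2) (c := c)
    (E := fun z => EA (pol v.1) (pol v.2) (x j) (s (x j)) ∅ z) (K := KA)
    (S := {z : ℂ | z ∈ SS (pol v.1) (pol v.2) T ∧ (pol v.2).eval z ≠ 0}) hinf
    (fun z hz => hz.2) (fun z hz => hEA j z hz.1)
    (fun z hz => hEA j _ (ss_step (pol v.1) (pol v.2) T hz.1 hz.2)) (fun z hz => hKA j z hz.1)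
    hQ (hEA j _ h.vS) (fun w hw => by
      obtain ⟨N, hN, h1, h2⟩ := ea_idnF h (hsD (x j) (hx j)) hinf hw
      exact ⟨N, hN, fun z hz => h1 z hz.1 hz.2, h2⟩)
  choose q hq hq1 hq2 using hgen
  obtain ⟨Ξ, hΞ⟩ : ∃ Ξ : ℂ → ℂ, ∀ z, Ξ z =
      ∑ j, PhiF χ c m (L j) (EA (pol v.1) (pol v.2) (x j) (s (x j)) ∅ z) := ⟨_, fun _ => rfl⟩
  have hqd : (∑ j, q j).natDegree ≤ 2 * d :=
    Polynomial.natDegree_sum_le_of_forall_le _ _ fun j _ => hq j
  have hX1 : ∀ z ∈ {z : ℂ | z ∈ SS (pol v.1) (pol v.2) T ∧ (pol v.2).eval z ≠ 0},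
      Pool.Agent.H61.TT.dg (pol v.1) (pol v.2) z *
        (Ξ z - iteratedDeriv m (Pool.H50.ST.Kn z) c) =
      Ξ (gg (pol v.1) (pol v.2) z) + (∑ j, q j).eval z / (pol v.2).eval z ^ 2 := by
    intro z hz
    have h1 : iteratedDeriv m (Pool.H50.ST.Kn z) c = ∑ j, PhiF χ c m (L j) (KA z) := by
      rw [phi_tot h.cut.sm h.cut.cs h.cut.one hLm hLd hLc (fun h0 => h.t0 (h.cut.sub h0))
        (fun h0 => h.t1 (h.cut.sub h0)) (fun h0 => xp_time hz.1 (h.cut.sub h0))]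
      rfl
    rw [h1, hΞ, hΞ, ← Finset.sum_sub_distrib, Finset.mul_sum, eval_finsetSum, Finset.sum_div,
      ← Finset.sum_add_distrib]
    exact Finset.sum_congr rfl fun j _ => hq1 j z hz
  have hX2 : 0 = Ξ (gg (pol v.1) (pol v.2) c) + (∑ j, q j).eval c / (pol v.2).eval c ^ 2 := by
    rw [hΞ, eval_finsetSum, Finset.sum_div, ← Finset.sum_add_distrib]
    exact (Finset.sum_eq_zero fun j _ => (hq2 j).symm).symm
  obtain ⟨η, κ, hκ, hη, hη1, hη2⟩ := Pool.H50.ST.xi_two h.rd hQ hW hWc hc0 hc1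
    (Ξ := Ξ) (S := {z : ℂ | z ∈ SS (pol v.1) (pol v.2) T ∧ (pol v.2).eval z ≠ 0})
    (fun z hz => hz.2) (fun hcS => xp_time hcS.1 hcT) hqd hX1 hX2
  have hX3 : ∀ a ∈ SS (pol v.1) (pol v.2) T, (pol v.2).eval a ≠ 0 →
        Ξ (gg (pol v.1) (pol v.2) a) = Pool.Agent.H61.TT.dg (pol v.1) (pol v.2) a * Ξ a +
          η.eval a / (pol v.2).eval a ^ 2 := fun z hz hzQ => hη1 z ⟨hz, hzQ⟩
  -- the growth
  have hCn : ∀ j, 0 ≤ C j := fun j => (hF j).nn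
  have hgr := fun j => ea_gr (hsD (x j) (hx j)).b (hsD (x j) (hx j)).mj hRb (fun z hz => (hbig z hz).1)
  choose G hG hGr using hgr
  have hgrow : ∀ z : ℂ, 2 * Rb + 2 ≤ ‖z‖ → ‖Ξ z‖ ≤ (∑ j, C j * G j) * (1 + ‖z‖) := by
    intro z hz
    rw [hΞ, Finset.sum_mul]
    refine (norm_sum_le _ _).trans (Finset.sum_le_sum fun j _ => ?_)
    obtain ⟨M, hM⟩ := hEA j z (hbig z (by linarith)).2
    have h1 := (hF j).bd (EA (pol v.1) (pol v.2) (x j) (s (x j)) ∅ z) (G j * (1 + ‖z‖))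
      (mul_nonneg (hG j) (by positivity)) ⟨hM.1, fun y hy => hGr j z hz y hy⟩
    rw [← mul_assoc] at h1
    exact h1
  refine ⟨Ξ, η, κ, hκ, deg_gr h hX3 (Finset.sum_nonneg fun j _ => mul_nonneg (hCn j) (hG j)) hgrow, hX3, hη2, ?_⟩
  intro ε hε
  have hcon : ∀ j, ∃ δ : ℝ, 0 < δ ∧ ∀ z ∈ SS (pol v.1) (pol v.2) T,
      ‖z - gg (pol v.1) (pol v.2) c‖ < δ →
      ‖PhiF χ c m (L j) (EA (pol v.1) (pol v.2) (x j) (s (x j)) ∅ z) -
        PhiF χ c m (L j) (EA (pol v.1) (pol v.2) (x j) (s (x j)) ∅ (gg (pol v.1) (pol v.2) c))‖ ≤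
        ε / (n + 1) := by
    intro j
    have hj := hCn j
    have he : 0 < ε / ((n + 1) * (C j + 1)) := by positivity
    obtain ⟨δ, hδ, hcon⟩ := ea_cont (hsD (x j) (hx j)).b (hsD (x j) (hx j)).mj
      (ss_lam (hsD (x j) (hx j)).sub h.vS) h.v0 h.v1 he
    refine ⟨δ, hδ, fun z hz hzv => ?_⟩
    obtain ⟨M1, hM1⟩ := hEA j z hz
    obtain ⟨M2, hM2⟩ := hEA j _ h.vS
    refine (xp_diff (hF j) he.le hM1 hM2 (hcon z (ss_lam (hsD (x j) (hx j)).sub hz) hzv)).trans ?_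
    rw [mul_div_assoc', div_le_div_iff₀ (by positivity) (by positivity)]
    have h1 : 0 ≤ ε * ((n : ℝ) + 1) := by positivity
    nlinarith
  choose δ hδ hcon using hcon
  have hev : ∀ᶠ t in 𝓝[>] (0 : ℝ), ∀ j, t ≤ δ j := by
    rw [eventually_all]
    intro j
    exact mem_nhdsWithin_of_mem_nhds (Iic_mem_nhds (hδ j))
  obtain ⟨t, ht1, ht2⟩ := (hev.and self_mem_nhdsWithin).exists
  refine ⟨t, ht2, fun a ha hav => ?_⟩
  rw [hΞ, hΞ, ← Finset.sum_sub_distrib]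
  refine (norm_sum_le _ _).trans ?_
  refine (Finset.sum_le_sum fun j _ => hcon j a ha (lt_of_lt_of_le hav (ht1 j))).trans ?_
  rw [Finset.sum_const, Finset.card_univ, Fintype.card_fin, nsmul_eq_mul, mul_div_assoc',
    div_le_iff₀ (by positivity)]
  nlinarith

end Pool.Agent.H57.PF
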